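import Pool.Agent.Q175.LG.Rg
import Pool.Agent.Q181.LR.Up
import Pool.Agent.TH6.FB.Mod

set_option autoImplicit false
set_option linter.unusedSectionVars false

/-! Every finitely presented module over a group ring `RH` has presentations of small size which are
controlled, along a homomorphism `H → G`, by an integral matrix over `ℤG` of norm close to `3 / √2`
(helper175, project LG of helper181). -/

namespace Pool.Agent.Q175.LG

open Matrix TH57.Thr TH6.PF TH6.FB
open Pool.Agent.Q181.LW (Mono)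
open Pool.Agent.Q181.LR (Eqv ME eqv_dil eqv_trans eqv_re norm_Zs NormLE_sub sq_half norm_zero_of)

section coker

variable {S : Type} [Ring S] {ι κ X : Type} [Fintype ι] [DecidableEq ι] [Fintype κ]
  [DecidableEq κ] [Fintype X] [DecidableEq X]

/-- Stably equivalent matrices present isomorphic modules. -/
theorem coker_eqv (A : Matrix ι κ S) (B : Matrix (ι ⊕ X) (κ ⊕ X) S) (h : Eqv A B) :
    Nonempty (((κ → S) ⧸ LinearMap.range A.vecMulLinear) ≃ₗ[S]
      ((κ ⊕ X → S) ⧸ LinearMap.range B.vecMulLinear)) := by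
  obtain ⟨P, P', rfl⟩ := h
  let f : (κ ⊕ X → S) →ₗ[S] ((κ → S) ⧸ LinearMap.range A.vecMulLinear) :=
    (LinearMap.range A.vecMulLinear).mkQ ∘ₗ (LinearMap.funLeft S S Sum.inl) ∘ₗ
      P'⁻¹.val.vecMulLinear
  have hf : ∀ y, f y = (LinearMap.range A.vecMulLinear).mkQ ((y ᵥ* P'⁻¹.val) ∘ Sum.inl) :=
    fun y => rfl
  have hsurj : Function.Surjective f := by
    intro q
    obtain ⟨x, rfl⟩ := Submodule.mkQ_surjective _ q
    refine ⟨Sum.elim x 0 ᵥ* P'.val, ?_⟩
    rw [hf, Matrix.vecMul_vecMul, P'.mul_inv, Matrix.vecMul_one]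
    rfl
  have hker : LinearMap.ker f = LinearMap.range (P.val * (fromBlocks A 0 0 1 :
      Matrix (ι ⊕ X) (κ ⊕ X) S) * P'.val).vecMulLinear := by
    ext y
    rw [LinearMap.mem_ker, hf, ← LinearMap.mem_ker, Submodule.ker_mkQ]
    constructor
    · rintro ⟨x, hx⟩
      rw [Matrix.vecMulLinear_apply] at hx
      refine ⟨Sum.elim x ((y ᵥ* P'⁻¹.val) ∘ Sum.inr) ᵥ* P⁻¹.val, ?_⟩
      rw [Matrix.vecMulLinear_apply, Matrix.vecMul_vecMul, ← Matrix.mul_assoc, ← Matrix.mul_assoc,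
        P.inv_mul, Matrix.one_mul, ← Matrix.vecMul_vecMul, Matrix.vecMul_fromBlocks]
      simp only [Matrix.vecMul_zero, add_zero, zero_add, Matrix.vecMul_one, Sum.elim_comp_inl,
        Sum.elim_comp_inr]
      rw [hx, Sum.elim_comp_inl_inr, Matrix.vecMul_vecMul, P'.inv_mul, Matrix.vecMul_one]
    · rintro ⟨x, rfl⟩
      refine ⟨(x ᵥ* P.val) ∘ Sum.inl, ?_⟩
      rw [Matrix.vecMulLinear_apply, Matrix.vecMulLinear_apply, Matrix.vecMul_vecMul,
        Matrix.mul_assoc, P'.mul_inv, Matrix.mul_one, ← Matrix.vecMul_vecMul]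
      conv_rhs => rw [← Sum.elim_comp_inl_inr (x ᵥ* P.val), Matrix.vecMul_fromBlocks]
      simp
  exact ⟨((Submodule.quotEquivOfEq _ _ hker).symm.trans
    (f.quotKerEquivOfSurjective hsurj)).symm⟩

end coker

section edges

variable {R : Type} [Ring R] {H G : Type} [Group H] [Group G] {ι κ : Type} [Fintype ι]
  [DecidableEq ι] [Fintype κ] [DecidableEq κ]

/-- an element of `RH` which is supported at one group element -/
def MoR (a : MonoidAlgebra R H) : Prop := ∃ (h : H) (r : R), a = MonoidAlgebra.single h r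

theorem moR : Rg.Mo (MoR : MonoidAlgebra R H → Prop) where
  zero := ⟨1, 0, by simp⟩
  one := ⟨1, 1, rfl⟩
  neg := by
    rintro _ ⟨h, r, rfl⟩
    exact ⟨h, -r, by simp⟩

theorem edges (A : Matrix ι κ (MonoidAlgebra R H)) :
    ∃ (E : Type) (_ : Fintype E) (s : E → ι) (t : E → κ) (z : E → MonoidAlgebra R H),
      Rg.IsSum s t z A ∧ ∀ e, MoR (z e) := by
  have hadd : ∀ A B : Matrix ι κ (MonoidAlgebra R H),
      (∃ (E : Type) (_ : Fintype E) (s : E → ι) (t : E → κ) (z : E → MonoidAlgebra R H),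
        Rg.IsSum s t z A ∧ ∀ e, MoR (z e)) →
      (∃ (E : Type) (_ : Fintype E) (s : E → ι) (t : E → κ) (z : E → MonoidAlgebra R H),
        Rg.IsSum s t z B ∧ ∀ e, MoR (z e)) →
      ∃ (E : Type) (_ : Fintype E) (s : E → ι) (t : E → κ) (z : E → MonoidAlgebra R H),
        Rg.IsSum s t z (A + B) ∧ ∀ e, MoR (z e) := by
    rintro A B ⟨E, i1, s, t, z, hA, hz⟩ ⟨E', i2, s', t', z', hB, hz'⟩
    refine ⟨E ⊕ E', inferInstance, Sum.elim s s', Sum.elim t t', Sum.elim z z', ?_, ?_⟩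
    · unfold Rg.IsSum at hA hB ⊢
      rw [Fintype.sum_sum_type]
      simp only [Sum.elim_inl, Sum.elim_inr]
      rw [← hA, ← hB]
    · rintro (e | e)
      · exact hz e
      · exact hz' e
  have hone : ∀ (i : ι) (j : κ) (a : MonoidAlgebra R H), MoR a →
      ∃ (E : Type) (_ : Fintype E) (s : E → ι) (t : E → κ) (z : E → MonoidAlgebra R H),
        Rg.IsSum s t z (Matrix.single i j a) ∧ ∀ e, MoR (z e) := by
    intro i j a ha
    refine ⟨Fin 1, inferInstance, fun _ => i, fun _ => j, fun _ => a, ?_, fun _ => ha⟩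
    unfold Rg.IsSum
    simp
  induction A using Matrix.induction_on' with
  | h_zero =>
    refine ⟨Fin 0, inferInstance, fun e => e.elim0, fun e => e.elim0, fun e => e.elim0, ?_,
      fun e => e.elim0⟩
    unfold Rg.IsSum
    simp
  | h_add A B hA hB => exact hadd A B hA hB
  | h_std_basis i j a =>
    induction a using MonoidAlgebra.induction_linear with
    | zero => exact hone i j 0 moR.zero
    | add a b ha hb =>
      rw [Matrix.single_add]
      exact hadd _ _ ha hb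
    | single g n => exact hone i j _ ⟨g, n, rfl⟩

theorem edges_fin (A : Matrix ι κ (MonoidAlgebra R H)) :
    ∃ (m : ℕ) (s : Fin m → ι) (t : Fin m → κ) (z : Fin m → MonoidAlgebra R H),
      Rg.IsSum s t z A ∧ ∀ e, MoR (z e) := by
  obtain ⟨E, i1, s, t, z, hA, hz⟩ := edges A
  let e := (Fintype.equivFin E).symm
  refine ⟨Fintype.card E, s ∘ e, t ∘ e, z ∘ e, ?_, fun k => hz _⟩
  unfold Rg.IsSum at hA ⊢
  rw [hA]
  exact (e.sum_comp (fun x => Matrix.single (s x) (t x) (z x))).symm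

/-- control of supports -/
def Ctl (φ : H →* G) (N : Matrix ι κ (MonoidAlgebra ℤ G)) (M : Matrix ι κ (MonoidAlgebra R H)) :
    Prop := ∀ i j h, (M i j).coeff h ≠ 0 → (N i j).coeff (φ h) ≠ 0

theorem isSum_of (K : Matrix ι κ (MonoidAlgebra ℤ G)) (B : Matrix ι κ (MonoidAlgebra R H))
    (h : ∀ i j, B i j ≠ 0 → K i j ≠ 0) :
    Rg.IsSum (ME.s K) (ME.t K) (fun p => B p.1.1 p.1.2) B := by
  classical
  unfold Rg.IsSum
  conv_lhs => rw [Matrix.matrix_eq_sum_single B]
  rw [← Fintype.sum_prod_type' (f := fun i j => Matrix.single i j (B i j))]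
  have h1 : ∑ x : ι × κ, Matrix.single x.1 x.2 (B x.1 x.2)
      = ∑ x ∈ Finset.univ.filter (fun x : ι × κ => K x.1 x.2 ≠ 0),
        Matrix.single x.1 x.2 (B x.1 x.2) := by
    symm
    apply Finset.sum_subset (Finset.subset_univ _)
    intro x _ hx
    rw [Finset.mem_filter] at hx
    have : B x.1 x.2 = 0 := by
      by_contra h'
      exact hx ⟨Finset.mem_univ _, h _ _ h'⟩
    rw [this, Matrix.single_zero]
  rw [h1, ← Finset.sum_subtype_eq_sum_filter]
  refine Finset.sum_bij (fun x _ => ⟨x.1, x.2⟩) (fun _ _ => Finset.mem_univ _) ?_ ?_ ?_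
  · intro a _ b _ h
    exact Subtype.ext (congrArg Subtype.val h)
  · rintro ⟨b, hb⟩ -
    exact ⟨⟨b, hb⟩, by simp, rfl⟩
  · intro x _
    rfl

end edges

section step

variable {R : Type} [Ring R] {H G : Type} [Group H] [Group G] (φ : H →* G) {ι κ : Type}
  [Fintype ι] [DecidableEq ι] [Fintype κ] [DecidableEq κ]

/-- the integral matrix with entries `φ h` at the positions of entries supported at `h` -/
noncomputable def kon (B : Matrix ι κ (MonoidAlgebra R H)) (hM : ∀ i j, MoR (B i j)) :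
    Matrix ι κ (MonoidAlgebra ℤ G) := by
  classical
  exact fun i j => if B i j = 0 then 0 else MonoidAlgebra.single (φ (hM i j).choose) 1

theorem kon_ne (B : Matrix ι κ (MonoidAlgebra R H)) (hM : ∀ i j, MoR (B i j)) (i : ι) (j : κ) :
    kon φ B hM i j ≠ 0 ↔ B i j ≠ 0 := by
  classical
  unfold kon
  split_ifs with h
  · simp [h]
  · simp only [ne_eq, h, not_false_eq_true, iff_true]
    intro h1
    have := congrArg (fun x : MonoidAlgebra ℤ G => x.coeff (φ (hM i j).choose)) h1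
    simp at this

theorem kon_mono (B : Matrix ι κ (MonoidAlgebra R H)) (hM : ∀ i j, MoR (B i j)) (i : ι) (j : κ) :
    Mono (kon φ B hM i j) := by
  classical
  unfold kon
  split_ifs with h
  · exact Or.inl rfl
  · exact Or.inr ⟨_, Or.inl rfl⟩

theorem kon_ctl (B : Matrix ι κ (MonoidAlgebra R H)) (hM : ∀ i j, MoR (B i j)) :
    Ctl φ (kon φ B hM) B := by
  classical
  intro i j h hh
  unfold kon
  have h0 : B i j ≠ 0 := by
    intro h0
    rw [h0] at hh
    exact hh (by simp)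
  rw [if_neg h0]
  obtain ⟨r, hr⟩ := (hM i j).choose_spec
  have h1 : h = (hM i j).choose := by
    by_contra hne
    apply hh
    rw [hr, MonoidAlgebra.coeff_single, Finsupp.single_apply, if_neg (Ne.symm hne)]
  rw [← h1, MonoidAlgebra.coeff_single, Finsupp.single_eq_same]
  exact one_ne_zero

/-- the subdivided matrix over a ring -/
noncomputable def ZR {S : Type} [Ring S] {E : Type} [Fintype E] [DecidableEq E] (s : E → ι)
    (t : E → κ) (z : E → S) (L : ℕ) : Matrix (ι ⊕ (E × Fin L)) (κ ⊕ (E × Fin L)) S :=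
  fromBlocks 0 (Rg.Qs s z L) (Rg.Ss t L) (Rg.Us L)

theorem one_ctl (h : H) (hh : (1 : MonoidAlgebra R H).coeff h ≠ 0) :
    (1 : MonoidAlgebra ℤ G).coeff (φ h) ≠ 0 := by
  classical
  have h1 : h = 1 := by
    by_contra hne
    apply hh
    rw [MonoidAlgebra.one_def, MonoidAlgebra.coeff_single, Finsupp.single_apply,
      if_neg (Ne.symm hne)]
  rw [h1, map_one, MonoidAlgebra.one_def, MonoidAlgebra.coeff_single, Finsupp.single_eq_same]
  exact one_ne_zero

theorem neg_one_ctl (h : H) (hh : (-1 : MonoidAlgebra R H).coeff h ≠ 0) :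
    (-1 : MonoidAlgebra ℤ G).coeff (φ h) ≠ 0 := by
  have e1 : ((-1 : MonoidAlgebra R H)).coeff h = -((1 : MonoidAlgebra R H).coeff h) := by simp
  have e2 : ((-1 : MonoidAlgebra ℤ G)).coeff (φ h) = -((1 : MonoidAlgebra ℤ G).coeff (φ h)) := by
    simp
  rw [e1] at hh
  rw [e2]
  exact neg_ne_zero.2 (one_ctl φ h (neg_ne_zero.1 hh))

theorem ZR_ctl {E : Type} [Fintype E] [DecidableEq E] (s : E → ι) (t : E → κ)
    (z : E → MonoidAlgebra R H) (z' : E → MonoidAlgebra ℤ G)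
    (hz : ∀ e h, (z e).coeff h ≠ 0 → (z' e).coeff (φ h) ≠ 0) (L : ℕ) :
    Ctl φ (Pool.Agent.Q181.LR.Zs s t z' L) (ZR s t z L) := by
  intro x y h hh
  rcases x with i | x <;> rcases y with j | y
  · exact absurd (by change (0 : MonoidAlgebra R H).coeff h = 0; simp) hh
  · change (Rg.Qs s z L i y).coeff h ≠ 0 at hh
    change (Pool.Agent.Q181.LR.Qs s z' L i y).coeff (φ h) ≠ 0
    unfold Rg.Qs at hh
    unfold Pool.Agent.Q181.LR.Qs
    split_ifs at hh ⊢ with h1
    · exact hz _ _ hh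
    · exact absurd (by simp) hh
  · change (Rg.Ss t L x j : MonoidAlgebra R H).coeff h ≠ 0 at hh
    change (Pool.Agent.Q181.LR.Ss t L x j : MonoidAlgebra ℤ G).coeff (φ h) ≠ 0
    unfold Rg.Ss at hh
    unfold Pool.Agent.Q181.LR.Ss
    split_ifs at hh ⊢ with h1
    · exact neg_one_ctl φ h hh
    · exact absurd (by simp) hh
  · change (Rg.Us L x y : MonoidAlgebra R H).coeff h ≠ 0 at hh
    change (Pool.Agent.Q181.LR.Us L x y : MonoidAlgebra ℤ G).coeff (φ h) ≠ 0
    unfold Rg.Us at hh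
    unfold Pool.Agent.Q181.LR.Us
    split_ifs at hh ⊢ with h1 h2 h3
    · exact one_ctl φ h hh
    · exact neg_one_ctl φ h hh
    · exact absurd (by simp) hh
    · exact absurd (by simp) hh

/-- the second step -/
theorem step_R {X : Type} [Fintype X] [DecidableEq X] (A : Matrix ι κ (MonoidAlgebra R H))
    (B : Matrix (ι ⊕ X) (κ ⊕ X) (MonoidAlgebra R H)) (hAB : Eqv A B)
    (hM : ∀ i j, MoR (B i j)) (hr : ∀ i, ∃ T : Finset (κ ⊕ X), T.card ≤ 3 ∧
      ∀ j, B i j ≠ 0 → j ∈ T) (hc : ∀ j, ∃ T : Finset (ι ⊕ X), T.card ≤ 3 ∧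
      ∀ i, B i j ≠ 0 → i ∈ T) :
    ∃ C : ℕ, ∀ L : ℕ, 1 ≤ L → ∃ (m : ℕ) (B' : Matrix (ι ⊕ Fin m) (κ ⊕ Fin m) (MonoidAlgebra R H))
      (N : Matrix (ι ⊕ Fin m) (κ ⊕ Fin m) (MonoidAlgebra ℤ G)),
      Eqv A B' ∧ m ≤ C * L ∧ Ctl φ N B' ∧ NormLE N (3 / Real.sqrt 2 + (1 / 2) ^ L) := by
  classical
  set K := kon φ B hM with hK
  set c₀ := Fintype.card X
  set e₀ := Fintype.card (ME K)
  refine ⟨c₀ + 3 * e₀, fun L hL => ?_⟩
  have hs : ∀ i, ((Finset.univ.filter fun e => ME.s K e = i).card : ℝ) ≤ 3 := by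
    intro i
    obtain ⟨T, h1, h2⟩ := hr i
    exact_mod_cast (ME.card_s K i T (fun j hj => h2 j ((kon_ne φ B hM i j).1 hj))).trans h1
  have ht : ∀ i, ((Finset.univ.filter fun e => ME.t K e = i).card : ℝ) ≤ 3 := by
    intro j
    obtain ⟨T, h1, h2⟩ := hc j
    exact_mod_cast (ME.card_t K j T (fun i hi => h2 i ((kon_ne φ B hM i j).1 hi))).trans h1
  have hN := norm_Zs (ME.s K) (ME.t K) (ME.z K) (L + 2) (θ := 1 / Real.sqrt 2) (by positivity)
    sq_half (by omega) hs ht (ME.mono K (kon_mono φ B hM))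
  have hE : Eqv B (ZR (ME.s K) (ME.t K) (fun p => B p.1.1 p.1.2) (L + 2)) :=
    eqv_dil B _ _ _ (Rg.Vs (L + 2)) (Rg.VsUs (L + 2)) (Rg.UsVs (L + 2))
      (Rg.QVS (ME.s K) (ME.t K) _ (L + 2) (by omega) B
        (isSum_of K B fun i j h => (kon_ne φ B hM i j).2 h))
  have hC := ZR_ctl φ (ME.s K) (ME.t K) (fun p => B p.1.1 p.1.2) (ME.z K)
    (fun p h hh => kon_ctl φ B hM _ _ h hh) (L + 2)
  have hE2 := eqv_trans A B _ hAB hE
  let e : Fin (Fintype.card (X ⊕ (ME K × Fin (L + 2)))) ≃ X ⊕ (ME K × Fin (L + 2)) :=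
    (Fintype.equivFin _).symm
  have hE3 := eqv_re A _ e hE2
  refine ⟨_, _, ((Pool.Agent.Q181.LR.Zs (ME.s K) (ME.t K) (ME.z K) (L + 2)).submatrix
    (Equiv.sumAssoc ι X _).symm (Equiv.sumAssoc κ X _).symm).submatrix
    (Equiv.sumCongr (Equiv.refl ι) e) (Equiv.sumCongr (Equiv.refl κ) e), hE3, ?_, ?_, ?_⟩
  · rw [Fintype.card_sum, Fintype.card_prod, Fintype.card_fin]
    change c₀ + e₀ * (L + 2) ≤ _
    have h1 : c₀ ≤ c₀ * L := Nat.le_mul_of_pos_right _ hL
    have h2 : e₀ * (L + 2) ≤ 3 * e₀ * L := by nlinarith [Nat.zero_le e₀]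
    nlinarith
  · intro i j h hh
    exact hC _ _ h hh
  · refine NormLE_sub _ _ _ _ (NormLE_sub _ _ _ _ ?_)
    refine Pool.Agent.Q181.LW.NormLE_mono (by positivity) ?_ hN
    have h1 : 3 * (1 / Real.sqrt 2) = 3 / Real.sqrt 2 := by ring
    rw [h1, pow_add]
    have h2 : (0 : ℝ) < (1 / 2) ^ L := by positivity
    norm_num
    linarith

/-- **Dilation over group rings.** -/
theorem dil (A : Matrix ι κ (MonoidAlgebra R H)) :
    ∃ C : ℕ, ∀ L : ℕ, 1 ≤ L → ∃ (m : ℕ) (B : Matrix (ι ⊕ Fin m) (κ ⊕ Fin m) (MonoidAlgebra R H))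
      (N : Matrix (ι ⊕ Fin m) (κ ⊕ Fin m) (MonoidAlgebra ℤ G)),
      Eqv A B ∧ m ≤ C * L ∧ Ctl φ N B ∧ NormLE N (3 / Real.sqrt 2 + (1 / 2) ^ L) := by
  classical
  obtain ⟨m₀, s, t, z, hA, hz⟩ := edges_fin A
  rcases Nat.eq_zero_or_pos m₀ with h0 | h0
  · subst h0
    have hA0 : A = 0 := by
      rw [hA]
      simp
    subst hA0
    refine ⟨0, fun L hL => ⟨0, fromBlocks 0 0 0 1, 0, ⟨1, 1, by simp⟩, Nat.zero_le _, ?_,
      norm_zero_of _ rfl _⟩⟩
    intro i j h hh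
    exfalso
    rcases i with i | i
    · rcases j with j | j
      · apply hh
        change (0 : MonoidAlgebra R H).coeff h = 0
        simp
      · exact j.elim0
    · exact i.elim0
  · exact step_R φ A (Rg.ZC s t z) (eqv_dil A _ _ _ _ (Rg.VUC s t z) (Rg.UVC s t z)
      (Rg.QVSC s t z h0 A hA)) (Rg.mono_ZC s t z moR hz) (Rg.ZC_row s t z h0) (Rg.ZC_col s t z h0)

/-- **Presentations of modules of small size and norm close to `3 / √2`.** -/
theorem dil_coker {m n : ℕ} (A : Matrix (Fin m) (Fin n) (MonoidAlgebra R H)) :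
    ∃ C : ℕ, ∀ L : ℕ, 1 ≤ L → ∃ (k : ℕ) (M : Matrix (Fin (m + k)) (Fin (n + k))
      (MonoidAlgebra R H)) (N : Matrix (Fin (m + k)) (Fin (n + k)) (MonoidAlgebra ℤ G)),
      k ≤ C * L ∧ Nonempty (Coker A ≃ₗ[MonoidAlgebra R H] Coker M) ∧ Ctrl φ N M ∧
        NormLE N (3 / Real.sqrt 2 + (1 / 2) ^ L) := by
  obtain ⟨C, hC⟩ := dil φ A
  refine ⟨C, fun L hL => ?_⟩
  obtain ⟨k, B, N, h1, h2, h3, h4⟩ := hC L hL
  obtain ⟨e1⟩ := coker_eqv A B h1
  obtain ⟨e2⟩ := coker_reindex B (finSumFinEquiv (m := m) (n := k)).symm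
    (finSumFinEquiv (m := n) (n := k)).symm
  exact ⟨k, B.submatrix finSumFinEquiv.symm finSumFinEquiv.symm,
    N.submatrix finSumFinEquiv.symm finSumFinEquiv.symm, h2, ⟨e1.trans e2⟩,
    fun i j h hh => h3 _ _ h hh, NormLE_sub _ _ _ _ h4⟩

end step

end Pool.Agent.Q175.LG
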