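import Pool.Agent.Q175.LG.Wn
import Pool.Agent.Q175.LG.Dil

set_option autoImplicit false
set_option linter.unusedSectionVars false
set_option linter.style.haveILetI false

/-! Analytic zero divisors: matrices over complex group algebras acting on functions which tend to zero
(helper175, project LG of helper181). -/

namespace Pool.Agent.Q175.LG.Az

open Matrix TH57.Thr TH6.PF
open Pool.Agent.Q181.LG (Win)
open Pool.Agent.Q181.LR (Struct Eqv)

section dom

/-- A matrix over a commutative domain has a kernel vector or is left invertible up to a nonzero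
scalar. -/
theorem alt_dom {S : Type} [CommRing S] [IsDomain S] {p q : Type} [Fintype p] [Fintype q]
    [DecidableEq p] [DecidableEq q] (B : Matrix p q S) (h : ∀ y : q → S, B *ᵥ y = 0 → y = 0) :
    ∃ (δ : S) (Y : Matrix q p S), δ ≠ 0 ∧ Y * B = Matrix.diagonal fun _ => δ := by
  classical
  let K := FractionRing S
  have hmap : Function.Injective (algebraMap S K) := IsFractionRing.injective S K
  have hinj : LinearMap.ker (Matrix.mulVecLin (B.map (algebraMap S K))) = ⊥ := by
    rw [LinearMap.ker_eq_bot']
    intro z hz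
    obtain ⟨d, hd⟩ := IsLocalization.exist_integer_multiples_of_finite (nonZeroDivisors S) z
    choose y hy using hd
    have h1 : B *ᵥ y = 0 := by
      funext i
      apply hmap
      have h2 := congrFun hz i
      rw [Matrix.mulVecLin_apply] at h2
      simp only [Matrix.mulVec, dotProduct, Matrix.map_apply, Pi.zero_apply] at h2 ⊢
      rw [map_sum, map_zero]
      calc ∑ j, algebraMap S K (B i j * y j) = ∑ j, (d : S) • (algebraMap S K (B i j) * z j) := by
            refine Finset.sum_congr rfl fun j _ => ?_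
            rw [map_mul, hy j, mul_smul_comm]
        _ = 0 := by rw [← Finset.smul_sum, h2, smul_zero]
    have h3 := h y h1
    funext j
    have h4 := hy j
    rw [h3, Pi.zero_apply, map_zero] at h4
    have h5 : algebraMap S K d * z j = 0 := by
      rw [← Algebra.smul_def]
      exact h4.symm
    rcases mul_eq_zero.1 h5 with h6 | h6
    · exfalso
      have h7 : (d : S) = 0 := hmap (by rw [h6, map_zero])
      exact nonZeroDivisors.ne_zero d.2 h7
    · exact h6
  obtain ⟨g, hg⟩ := (Matrix.mulVecLin (B.map (algebraMap S K))).exists_leftInverse_of_injective hinj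
  have hY0 : LinearMap.toMatrix' g * B.map (algebraMap S K) = 1 := by
    have h1 := congrArg LinearMap.toMatrix' hg
    rw [LinearMap.toMatrix'_comp, LinearMap.toMatrix'_id] at h1
    have h2 : LinearMap.toMatrix' (B.map (algebraMap S K)).mulVecLin = B.map (algebraMap S K) :=
      LinearMap.toMatrix'_toLin' _
    rwa [h2] at h1
  obtain ⟨δ, hδ⟩ := IsLocalization.exist_integer_multiples_of_finite (nonZeroDivisors S)
    (fun x : q × p => LinearMap.toMatrix' g x.1 x.2)
  choose Y hY using hδ
  refine ⟨δ, Matrix.of fun i j => Y (i, j), nonZeroDivisors.ne_zero δ.2, ?_⟩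
  ext i j
  apply hmap
  have h1 := congrFun (congrFun hY0 i) j
  rw [Matrix.mul_apply] at h1
  rw [Matrix.mul_apply, map_sum]
  calc ∑ k, algebraMap S K (Matrix.of (fun i j => Y (i, j)) i k * B k j)
      = ∑ k, (δ : S) • (LinearMap.toMatrix' g i k * algebraMap S K (B k j)) := by
        refine Finset.sum_congr rfl fun k _ => ?_
        rw [map_mul, Matrix.of_apply, hY (i, k), smul_mul_assoc]
    _ = (δ : S) • (1 : Matrix q q K) i j := by
        rw [← Finset.smul_sum, ← h1]
        rfl
    _ = algebraMap S K (Matrix.diagonal (fun _ => (δ : S)) i j) := by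
        rw [Matrix.one_apply, Matrix.diagonal_apply]
        split_ifs
        · rw [Algebra.smul_def, mul_one]
        · rw [smul_zero, map_zero]

/-- the same for group rings of torsion-free cyclic groups -/
theorem alt_cyc {V : Type} [Group V] (hV : IsCyclic V)
    (htf : ∀ g : V, ∀ k : ℕ, 0 < k → g ^ k = 1 → g = 1) {p q : Type} [Fintype p] [Fintype q]
    [DecidableEq p] [DecidableEq q] (B : Matrix p q (MonoidAlgebra ℂ V)) :
    (∃ y : q → MonoidAlgebra ℂ V, y ≠ 0 ∧ B *ᵥ y = 0) ∨
      ∃ (δ : MonoidAlgebra ℂ V) (Y : Matrix q p (MonoidAlgebra ℂ V)), δ ≠ 0 ∧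
        Y * B = Matrix.diagonal fun _ => δ := by
  classical
  obtain ⟨S, i1, i2, i3, ⟨e⟩⟩ := pid_of_cyclic ℂ hV htf
  by_cases h : ∀ y : q → S, B.map e.symm *ᵥ y = 0 → y = 0
  · right
    obtain ⟨δ, Y, h1, h2⟩ := alt_dom (B.map e.symm) h
    refine ⟨e δ, Y.map e, fun h3 => h1 (e.injective (by rw [h3, map_zero])), ?_⟩
    have h3 := congrArg (fun M : Matrix q q S => M.map e) h2
    have h4 : (Y * B.map e.symm).map e = Y.map e * B := by
      rw [Matrix.map_mul, Matrix.map_map]
      congr 1
      ext i j
      simp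
    rw [← h4]
    refine h3.trans ?_
    ext1 i j
    change e (Matrix.diagonal (fun _ => δ) i j) = _
    rw [Matrix.diagonal_apply, Matrix.diagonal_apply]
    split_ifs
    · rfl
    · exact map_zero e
  · left
    push Not at h
    obtain ⟨y, h1, h2⟩ := h
    refine ⟨fun j => e (y j), fun h3 => h2 ?_, ?_⟩
    · funext j
      apply e.injective
      rw [Pi.zero_apply, map_zero]
      exact congrFun h3 j
    · funext i
      have h3 := congrArg e (congrFun h1 i)
      simp only [Matrix.mulVec, dotProduct, Matrix.map_apply, Pi.zero_apply, map_zero, map_sum,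
        map_mul, RingEquiv.apply_symm_apply] at h3 ⊢
      exact h3

end dom

section act

variable {G : Type} [Group G]

/-- left translation of functions -/
def rep (G : Type) [Group G] : G →* Module.End ℂ (G → ℂ) where
  toFun k :=
    { toFun := fun f g => f (k⁻¹ * g)
      map_add' := fun f f' => rfl
      map_smul' := fun c f => rfl }
  map_one' := by
    ext f g
    simp
  map_mul' k l := by
    refine LinearMap.ext fun f => ?_
    funext g
    change f ((k * l)⁻¹ * g) = f (l⁻¹ * (k⁻¹ * g))
    rw [_root_.mul_inv_rev, mul_assoc]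

/-- convolution with elements of the group algebra -/
noncomputable def act (G : Type) [Group G] : MonoidAlgebra ℂ G →ₐ[ℂ] Module.End ℂ (G → ℂ) :=
  MonoidAlgebra.lift ℂ (Module.End ℂ (G → ℂ)) G (rep G)

theorem act_single (k : G) (c : ℂ) (f : G → ℂ) (g : G) :
    act G (MonoidAlgebra.single k c) f g = c * f (k⁻¹ * g) := by
  unfold act
  rw [MonoidAlgebra.lift_single]
  rfl

theorem act_apply (α : MonoidAlgebra ℂ G) (f : G → ℂ) (g : G) :
    act G α f g = ∑ k ∈ α.coeff.support, α.coeff k * f (k⁻¹ * g) := by
  unfold act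
  rw [MonoidAlgebra.lift_apply]
  change (Finsupp.sum α.coeff fun a b => b • rep G a) f g = _
  rw [Finsupp.sum, LinearMap.sum_apply, Finset.sum_apply]
  rfl

/-- matrices acting on columns of functions -/
noncomputable def mact {m n : Type} [Fintype n] (A : Matrix m n (MonoidAlgebra ℂ G))
    (f : n → G → ℂ) : m → G → ℂ := fun i => ∑ j, act G (A i j) (f j)

theorem mact_mul {l m n : Type} [Fintype m] [Fintype n] (Y : Matrix l m (MonoidAlgebra ℂ G))
    (A : Matrix m n (MonoidAlgebra ℂ G)) (f : n → G → ℂ) :
    mact (Y * A) f = mact Y (mact A f) := by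
  funext i
  unfold mact
  simp only [Matrix.mul_apply, map_sum, map_mul, LinearMap.sum_apply]
  rw [Finset.sum_comm]
  rfl

theorem mact_one {n : Type} [Fintype n] [DecidableEq n] (f : n → G → ℂ) :
    mact (1 : Matrix n n (MonoidAlgebra ℂ G)) f = f := by
  funext i
  unfold mact
  rw [Finset.sum_eq_single i]
  · rw [Matrix.one_apply_eq, map_one]
    rfl
  · intro j _ hj
    rw [Matrix.one_apply_ne hj.symm, map_zero]
    rfl
  · intro h; exact absurd (Finset.mem_univ i) h

theorem mact_zero {m n : Type} [Fintype n] (A : Matrix m n (MonoidAlgebra ℂ G)) :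
    mact A 0 = 0 := by
  funext i
  unfold mact
  refine Finset.sum_eq_zero fun j _ => ?_
  rw [Pi.zero_apply, map_zero]

theorem act_coeff (α β : MonoidAlgebra ℂ G) :
    act G α (fun g => β.coeff g) = fun g => (α * β).coeff g := by
  induction α using MonoidAlgebra.induction_linear with
  | zero =>
    rw [map_zero]
    funext g
    simp
  | add x y hx hy =>
    rw [map_add, LinearMap.add_apply, hx, hy]
    funext g
    rw [add_mul, MonoidAlgebra.coeff_add, Finsupp.add_apply]
    rfl
  | single k c =>
    funext g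
    rw [act_single, MonoidAlgebra.coeff_single_mul_apply]

theorem mact_coeff {m n : Type} [Fintype n] (A : Matrix m n (MonoidAlgebra ℂ G))
    (y : n → MonoidAlgebra ℂ G) :
    mact A (fun j g => (y j).coeff g) = fun i g => ((A *ᵥ y) i).coeff g := by
  funext i
  unfold mact
  rw [Finset.sum_congr rfl fun j _ => act_coeff (A i j) (y j)]
  funext g
  rw [Finset.sum_apply, Matrix.mulVec, dotProduct, MonoidAlgebra.coeff_sum,
    Finsupp.finsetSum_apply]

end act

section czero

variable {G : Type} [Group G]

/-- `f` tends to zero at infinity -/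
def C0 {X : Type} (f : X → ℂ) : Prop := Filter.Tendsto f Filter.cofinite (nhds 0)

theorem C0.finite {X : Type} {f : X → ℂ} (h : C0 f) (ε : ℝ) (hε : 0 < ε) :
    {x | ε ≤ ‖f x‖}.Finite := by
  have h1 := h.eventually (Metric.ball_mem_nhds (0 : ℂ) hε)
  rw [Filter.eventually_cofinite] at h1
  refine h1.subset fun x hx => ?_
  change ¬ dist (f x) 0 < ε
  rw [not_lt, dist_zero_right]
  exact hx

theorem shift_inj (t : G) (ht : ∀ k : ℕ, 0 < k → t ^ k ≠ 1) (lam : ℂ) (f : G → ℂ) (hf : C0 f)
    (he : ∀ g, f (t⁻¹ * g) = lam * f g) : f = 0 := by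
  by_contra h0
  obtain ⟨g, hg⟩ := Function.ne_iff.1 h0
  have hg' : f g ≠ 0 := hg
  have hinj : Function.Injective fun n : ℕ => t ^ n := by
    intro a b hab
    simp only at hab
    rcases lt_trichotomy a b with h | h | h
    · exfalso
      apply ht (b - a) (by omega)
      have h1 : t ^ b = t ^ (b - a) * t ^ a := by rw [← pow_add]; congr 1; omega
      rw [← hab] at h1
      exact (mul_eq_right.1 h1.symm)
    · exact h
    · exfalso
      apply ht (a - b) (by omega)
      have h1 : t ^ a = t ^ (a - b) * t ^ b := by rw [← pow_add]; congr 1; omega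
      rw [hab] at h1
      exact (mul_eq_right.1 h1.symm)
  have hfin := hf.finite ‖f g‖ (norm_pos_iff.2 hg')
  rcases le_or_gt 1 ‖lam‖ with h1 | h1
  · have h2 : ∀ n : ℕ, f ((t ^ n)⁻¹ * g) = lam ^ n * f g := by
      intro n
      induction n with
      | zero => simp
      | succ n ih =>
        have h3 : (t ^ (n + 1))⁻¹ * g = t⁻¹ * ((t ^ n)⁻¹ * g) := by
          rw [pow_succ, _root_.mul_inv_rev, mul_assoc]
        rw [h3, he, ih, pow_succ]
        ring
    refine hfin.not_infinite (Set.infinite_of_injective_forall_mem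
      (f := fun n : ℕ => (t ^ n)⁻¹ * g) ?_ ?_)
    · intro a b hab
      exact hinj (inv_injective (mul_right_cancel hab))
    · intro n
      change ‖f g‖ ≤ ‖f ((t ^ n)⁻¹ * g)‖
      rw [h2, norm_mul, norm_pow]
      exact le_mul_of_one_le_left (norm_nonneg _) (one_le_pow₀ h1)
  · have h2 : ∀ n : ℕ, f g = lam ^ n * f (t ^ n * g) := by
      intro n
      induction n with
      | zero => simp
      | succ n ih =>
        have h3 := he (t ^ (n + 1) * g)
        have h4 : t⁻¹ * (t ^ (n + 1) * g) = t ^ n * g := by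
          rw [pow_succ', mul_assoc, inv_mul_cancel_left]
        rw [h4] at h3
        rw [ih, h3, pow_succ]
        ring
    refine hfin.not_infinite (Set.infinite_of_injective_forall_mem
      (f := fun n : ℕ => t ^ n * g) ?_ ?_)
    · intro a b hab
      exact hinj (mul_right_cancel hab)
    · intro n
      change ‖f g‖ ≤ ‖f (t ^ n * g)‖
      nth_rewrite 1 [h2 n]
      rw [norm_mul, norm_pow]
      exact mul_le_of_le_one_left (norm_nonneg _) (pow_le_one₀ (norm_nonneg _) h1.le)

theorem C0.shift {f : G → ℂ} (hf : C0 f) (t : G) : C0 (fun g => f (t⁻¹ * g)) :=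
  hf.comp (Equiv.mulLeft t⁻¹).injective.tendsto_cofinite

theorem C0.sub {f h : G → ℂ} (hf : C0 f) (hh : C0 h) : C0 (fun g => f g - h g) := by
  have := Filter.Tendsto.sub hf hh
  rwa [sub_zero] at this

theorem C0.smul {f : G → ℂ} (hf : C0 f) (c : ℂ) : C0 (fun g => c * f g) := by
  have := Filter.Tendsto.const_mul c hf
  rwa [mul_zero] at this

open Polynomial in
theorem poly_inj (t : G) (ht : ∀ k : ℕ, 0 < k → t ^ k ≠ 1) :
    ∀ (n : ℕ) (p : ℂ[X]), p ≠ 0 → p.natDegree = n → ∀ f : G → ℂ, C0 f →
      aeval (act G (MonoidAlgebra.single t 1)) p f = 0 → f = 0 := by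
  intro n
  induction n with
  | zero =>
    intro p hp hn f _ h
    rw [natDegree_eq_zero] at hn
    obtain ⟨c, rfl⟩ := hn
    have hc : c ≠ 0 := fun h0 => hp (by rw [h0, C_0])
    rw [aeval_C] at h
    funext g
    have h2 := congrFun h g
    have h3 : c * f g = 0 := by
      simpa using h2
    rcases mul_eq_zero.1 h3 with h4 | h4
    · exact absurd h4 hc
    · exact h4
  | succ n ih =>
    intro p hp hn f hf h
    have hdeg : p.degree ≠ 0 := by
      intro h0
      rw [degree_eq_natDegree hp, hn] at h0
      have : n + 1 = 0 := by exact_mod_cast h0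
      omega
    obtain ⟨r, hr⟩ := IsAlgClosed.exists_root p hdeg
    obtain ⟨q, hq⟩ := dvd_iff_isRoot.2 hr
    have hq0 : q ≠ 0 := fun h0 => hp (by rw [hq, h0, mul_zero])
    have hqn : q.natDegree = n := by
      have h1 := hn
      rw [hq, natDegree_mul (X_sub_C_ne_zero r) hq0, natDegree_X_sub_C] at h1
      omega
    have h2 : (aeval (act G (MonoidAlgebra.single t 1)) q)
        ((aeval (act G (MonoidAlgebra.single t 1)) (X - C r)) f) = 0 := by
      rw [hq, mul_comm, map_mul, Module.End.mul_apply] at h
      exact h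
    have h3 : (aeval (act G (MonoidAlgebra.single t 1)) (X - C r)) f
        = fun g => f (t⁻¹ * g) - r * f g := by
      rw [map_sub, aeval_X, aeval_C, LinearMap.sub_apply]
      funext g
      rw [Pi.sub_apply, act_single, one_mul]
      congr 1
    have h4 := ih q hq0 hqn _ (by rw [h3]; exact (hf.shift t).sub (hf.smul r)) h2
    apply shift_inj t ht r f hf
    intro g
    have h5 := congrFun (h3.symm.trans h4) g
    exact sub_eq_zero.1 h5

open Polynomial in
/-- nonzero elements of group algebras of infinite cyclic subgroups act injectively -/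
theorem cyc_inj (t : G) (ht : ∀ k : ℕ, 0 < k → t ^ k ≠ 1) (δ : MonoidAlgebra ℂ G) (hδ : δ ≠ 0)
    (hs : ∀ g, δ.coeff g ≠ 0 → g ∈ Subgroup.zpowers t) (f : G → ℂ) (hf : C0 f)
    (h : act G δ f = 0) : f = 0 := by
  classical
  have hex : ∀ g, ∃ e : ℤ, δ.coeff g ≠ 0 → t ^ e = g := by
    intro g
    by_cases hg : δ.coeff g = 0
    · exact ⟨0, fun h => absurd hg h⟩
    · obtain ⟨e, he⟩ := Subgroup.mem_zpowers_iff.1 (hs g hg)
      exact ⟨e, fun _ => he⟩
  choose e he using hex
  set N : ℕ := ∑ g ∈ δ.coeff.support, (e g).natAbs with hN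
  have hNe : ∀ g ∈ δ.coeff.support, (((N : ℤ) + e g).toNat : ℤ) = N + e g := by
    intro g hg
    apply Int.toNat_of_nonneg
    have h1 : (e g).natAbs ≤ N := Finset.single_le_sum (f := fun g => (e g).natAbs)
      (fun _ _ => Nat.zero_le _) hg
    omega
  set p : ℂ[X] := ∑ g ∈ δ.coeff.support, C (δ.coeff g) * X ^ ((N : ℤ) + e g).toNat with hp
  have hδs : δ = ∑ g ∈ δ.coeff.support, MonoidAlgebra.single g (δ.coeff g) := by
    ext g
    rw [MonoidAlgebra.coeff_sum, Finsupp.finsetSum_apply]
    have h1 : ∀ k ∈ δ.coeff.support, (MonoidAlgebra.single k (δ.coeff k)).coeff g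
        = if k = g then δ.coeff g else 0 := by
      intro k _
      rw [MonoidAlgebra.coeff_single, Finsupp.single_apply]
      by_cases h2 : k = g
      · rw [if_pos h2, if_pos h2, h2]
      · rw [if_neg h2, if_neg h2]
    rw [Finset.sum_congr rfl h1, Finset.sum_ite_eq']
    split_ifs with h2
    · rfl
    · exact Finsupp.notMem_support_iff.1 h2
  have hpe : aeval (MonoidAlgebra.single t (1 : ℂ) : MonoidAlgebra ℂ G) p
      = MonoidAlgebra.single (t ^ N) 1 * δ := by
    rw [hp, map_sum]
    conv_rhs => rw [hδs, Finset.mul_sum]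
    refine Finset.sum_congr rfl fun g hg => ?_
    rw [map_mul, map_pow, aeval_C, aeval_X, MonoidAlgebra.single_pow, one_pow,
      MonoidAlgebra.single_mul_single, one_mul]
    have h1 : t ^ ((N : ℤ) + e g).toNat = t ^ N * g := by
      rw [← zpow_natCast, hNe g hg, _root_.zpow_add, zpow_natCast,
        he g (Finsupp.mem_support_iff.1 hg)]
    rw [h1, ← Algebra.smul_def]
    ext x
    rw [MonoidAlgebra.coeff_smul, Finsupp.smul_apply, MonoidAlgebra.coeff_single,
      MonoidAlgebra.coeff_single, Finsupp.single_apply, Finsupp.single_apply]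
    split_ifs
    · rw [smul_eq_mul, mul_one]
    · rw [smul_zero]
  have hp0 : p ≠ 0 := by
    intro h0
    apply hδ
    rw [h0, map_zero] at hpe
    have h1 : MonoidAlgebra.single (t ^ N)⁻¹ (1 : ℂ) * (MonoidAlgebra.single (t ^ N) 1 * δ) = δ := by
      rw [← mul_assoc, MonoidAlgebra.single_mul_single, inv_mul_cancel, one_mul,
        ← MonoidAlgebra.one_def, one_mul]
    rw [← h1, ← hpe, mul_zero]
  refine poly_inj t ht _ p hp0 rfl f hf ?_
  have h1 : aeval (act G (MonoidAlgebra.single t 1)) p
      = act G (aeval (MonoidAlgebra.single t (1 : ℂ) : MonoidAlgebra ℂ G) p) :=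
    aeval_algHom_apply (act G) _ p
  rw [h1, hpe, map_mul, Module.End.mul_apply, h, map_zero]

end czero

end Pool.Agent.Q175.LG.Az
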