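import Pool.Agent.Q175.LG.Az

set_option autoImplicit false
set_option linter.unusedSectionVars false
set_option linter.style.haveILetI false

/-! Analytic zero divisors: matrices in the window above `3 / √2`, dilation (helper175, project LG of
helper181). -/

namespace Pool.Agent.Q175.LG.Az

open Matrix TH57.Thr TH6.PF
open Pool.Agent.Q181.LG (Win)
open Pool.Agent.Q181.LR (Struct Eqv)

variable {G : Type} [Group G]

/-- elements of group algebras of cyclic subgroups of torsion-free groups act injectively -/
theorem sub_inj (htf : TF G) (C : Subgroup G) (hC : IsCyclic C) (δ : MonoidAlgebra ℂ C)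
    (hδ : δ ≠ 0) (f : G → ℂ) (hf : C0 f)
    (h : act G (MonoidAlgebra.mapDomainRingHom ℂ C.subtype δ) f = 0) : f = 0 := by
  classical
  obtain ⟨t, ht⟩ := hC.exists_generator
  set δ' : MonoidAlgebra ℂ G := MonoidAlgebra.mapDomainRingHom ℂ C.subtype δ with hδ'
  have h0 : δ' ≠ 0 := by
    intro h0
    apply hδ
    apply MonoidAlgebra.mapDomain_injective C.subtype_injective
    rw [MonoidAlgebra.mapDomain_zero]
    exact h0
  have hsupp : ∀ g, δ'.coeff g ≠ 0 → g ∈ Subgroup.zpowers t.1 := by
    intro g hg
    have h1 : g ∈ Set.range C.subtype := by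
      by_contra h2
      apply hg
      change (MonoidAlgebra.mapDomain C.subtype δ).coeff g = 0
      rw [MonoidAlgebra.coeff_mapDomain]
      exact Finsupp.mapDomain_of_notMem_range _ _ h2
    obtain ⟨c, rfl⟩ := h1
    obtain ⟨k, hk⟩ := Subgroup.mem_zpowers_iff.1 (ht c)
    refine Subgroup.mem_zpowers_iff.2 ⟨k, ?_⟩
    rw [← hk]
    rfl
  by_cases h1 : t.1 = 1
  · have h2 : ∀ g, δ'.coeff g ≠ 0 → g = 1 := by
      intro g hg
      have h3 := hsupp g hg
      rwa [h1, Subgroup.zpowers_one_eq_bot, Subgroup.mem_bot] at h3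
    have h3 : δ' = MonoidAlgebra.single 1 (δ'.coeff 1) := by
      ext g
      rw [MonoidAlgebra.coeff_single, Finsupp.single_apply]
      split_ifs with h4
      · rw [← h4]
      · by_contra h5
        exact h4 (h2 g h5).symm
    have h4 : δ'.coeff 1 ≠ 0 := by
      intro h5
      apply h0
      rw [h3, h5, MonoidAlgebra.single_zero]
    funext g
    have h5 := congrFun h g
    rw [h3, act_single, inv_one, one_mul] at h5
    rcases mul_eq_zero.1 h5 with h6 | h6
    · exact absurd h6 h4
    · exact h6
  · exact cyc_inj t.1 (fun k hk h2 => h1 (htf t.1 k hk h2)) δ' h0 hsupp f hf h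

section pattern

variable {ι κ β : Type} [Fintype ι] [Fintype κ] [DecidableEq ι] [DecidableEq κ] [DecidableEq β]
  (A : Matrix ι κ (MonoidAlgebra ℂ G)) (r : ι → β) (s : κ → β) (C : β → Subgroup G)
  (u : ι → G) (w : κ → G)

theorem sg_inv (g : G) : (MonoidAlgebra.single g⁻¹ 1 : MonoidAlgebra ℂ G) *
    MonoidAlgebra.single g 1 = 1 := by
  rw [MonoidAlgebra.single_mul_single, inv_mul_cancel, mul_one, MonoidAlgebra.one_def]

theorem scl_zero (h : ∀ i j g, (A i j).coeff g ≠ 0 → r i = s j ∧ u i * g * (w j)⁻¹ ∈ C (r i))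
    (i : ι) (j : κ) (hij : r i ≠ s j) : scl A u w i j = 0 := by
  ext g
  by_contra h1
  exact hij (scl_supp A r s C u w h i j g h1).1

/-- **Block patterns.** -/
theorem pattern_alt (htf : TF G) (hC : ∀ b, IsCyclic (C b))
    (h : ∀ i j g, (A i j).coeff g ≠ 0 → r i = s j ∧ u i * g * (w j)⁻¹ ∈ C (r i)) :
    (∃ y : κ → MonoidAlgebra ℂ G, y ≠ 0 ∧ A *ᵥ y = 0) ∨
      ∀ f : κ → G → ℂ, (∀ j, C0 (f j)) → mact A f = 0 → f = 0 := by
  classical
  by_cases hb : ∃ b, ∃ y : {j // s j = b} → MonoidAlgebra ℂ (C b), y ≠ 0 ∧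
      blkm A r s C u w b *ᵥ y = 0
  · left
    obtain ⟨b, y, hy0, hy⟩ := hb
    let e : MonoidAlgebra ℂ (C b) →+* MonoidAlgebra ℂ G :=
      MonoidAlgebra.mapDomainRingHom ℂ (C b).subtype
    let z : κ → MonoidAlgebra ℂ G := fun j =>
      if hj : s j = b then MonoidAlgebra.single (w j)⁻¹ 1 * e (y ⟨j, hj⟩) else 0
    refine ⟨z, ?_, ?_⟩
    · intro hz
      obtain ⟨j, hj⟩ := Function.ne_iff.1 hy0
      apply hj
      have h1 := congrFun hz j.1
      simp only [z] at h1
      rw [dif_pos j.2] at h1
      have h2 : e (y j) = 0 := by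
        have h3 : MonoidAlgebra.single (w j.1) (1 : ℂ) *
            (MonoidAlgebra.single (w j.1)⁻¹ 1 * e (y j)) = e (y j) := by
          rw [← mul_assoc, MonoidAlgebra.single_mul_single, mul_inv_cancel, one_mul,
            ← MonoidAlgebra.one_def, one_mul]
        rw [← h3]
        rw [show MonoidAlgebra.single (w j.1)⁻¹ 1 * e (y j) = 0 from h1, mul_zero]
      apply MonoidAlgebra.mapDomain_injective (C b).subtype_injective
      rw [Pi.zero_apply, MonoidAlgebra.mapDomain_zero]
      exact h2
    · funext i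
      have h1 : MonoidAlgebra.single (u i) (1 : ℂ) * (A *ᵥ z) i = 0 := by
        rw [Matrix.mulVec, dotProduct, Finset.mul_sum]
        have h2 : ∀ j, MonoidAlgebra.single (u i) (1 : ℂ) * (A i j * z j)
            = if hj : s j = b then scl A u w i j * e (y ⟨j, hj⟩) else 0 := by
          intro j
          simp only [z]
          split_ifs with hj
          · simp only [scl, mul_assoc]
          · rw [mul_zero, mul_zero]
        rw [Finset.sum_congr rfl fun j _ => h2 j]
        by_cases hi : r i = b
        · have h3 : (∑ j, if hj : s j = b then scl A u w i j * e (y ⟨j, hj⟩) else 0)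
              = ∑ j : {j // s j = b}, scl A u w i j.1 * e (y j) := by
            rw [← Fintype.sum_subtype_add_sum_subtype (fun j => s j = b)]
            rw [Finset.sum_eq_zero (s := Finset.univ)
              (f := fun j : {j // ¬ s j = b} => _) (fun j _ => by rw [dif_neg j.2]), add_zero]
            exact Finset.sum_congr rfl fun j _ => by rw [dif_pos j.2]
          rw [h3]
          have h4 := congrArg e (congrFun hy ⟨i, hi⟩)
          rw [Pi.zero_apply, map_zero, Matrix.mulVec, dotProduct, map_sum] at h4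
          rw [← h4]
          refine Finset.sum_congr rfl fun j _ => ?_
          rw [map_mul]
          congr 1
          exact (ind_blkm A r s C u w h b ⟨i, hi⟩ j).symm
        · refine Finset.sum_eq_zero fun j _ => ?_
          split_ifs with hj
          · rw [scl_zero A r s C u w h i j (by rw [hj]; exact hi), zero_mul]
          · rfl
      have h2 : (A *ᵥ z) i = MonoidAlgebra.single (u i)⁻¹ (1 : ℂ) *
          (MonoidAlgebra.single (u i) (1 : ℂ) * (A *ᵥ z) i) := by
        rw [← mul_assoc, sg_inv, one_mul]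
      rw [h2, h1, mul_zero]
      rfl
  · right
    push Not at hb
    intro f hf hAf
    have hY : ∀ b, ∃ (δ : MonoidAlgebra ℂ (C b))
        (Y : Matrix {j // s j = b} {i // r i = b} (MonoidAlgebra ℂ (C b))), δ ≠ 0 ∧
        Y * blkm A r s C u w b = Matrix.diagonal fun _ => δ := by
      intro b
      rcases alt_cyc (hC b) (fun g k hk hg => Subtype.ext
        (htf g.1 k hk (by simpa using congrArg Subtype.val hg))) (blkm A r s C u w b) with h1 | h1
      · obtain ⟨y, h2, h3⟩ := h1
        exact absurd h3 (hb b y h2)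
      · exact h1
    let f' : κ → G → ℂ := fun j => act G (MonoidAlgebra.single (w j) 1) (f j)
    have hkey : ∀ i j, act G (scl A u w i j) (f' j)
        = act G (MonoidAlgebra.single (u i) 1) (act G (A i j) (f j)) := by
      intro i j
      simp only [f', scl]
      rw [← Module.End.mul_apply, ← map_mul, mul_assoc, sg_inv, mul_one, map_mul,
        Module.End.mul_apply]
    have hz : ∀ b (i : {i // r i = b}),
        ∑ j : {j // s j = b}, act G (scl A u w i.1 j.1) (f' j.1) = 0 := by
      intro b i
      have h1 : ∑ j, act G (scl A u w i.1 j) (f' j) = 0 := by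
        rw [Finset.sum_congr rfl fun j _ => hkey i.1 j, ← map_sum]
        have h2 : ∑ j, act G (A i.1 j) (f j) = 0 := congrFun hAf i.1
        rw [h2, map_zero]
      rw [← h1, ← Fintype.sum_subtype_add_sum_subtype (fun j => s j = b)]
      rw [Finset.sum_eq_zero (s := Finset.univ) (f := fun j : {j // ¬ s j = b} => _)
        (fun j _ => by
          rw [scl_zero A r s C u w h i.1 j.1 (by rw [i.2]; exact fun h => j.2 h.symm), map_zero]
          rfl), add_zero]
    funext j
    obtain ⟨δ, Y, h1, h2⟩ := hY (s j)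
    have h3 : mact (TH57.Thr.ind (blkm A r s C u w (s j))) (fun j' : {j' // s j' = s j} => f' j'.1) = 0 := by
      funext i
      refine Eq.trans ?_ (hz (s j) i)
      unfold mact
      refine Finset.sum_congr rfl fun j' _ => ?_
      rw [ind_blkm A r s C u w h]
    have h4 : mact (TH57.Thr.ind (Y * blkm A r s C u w (s j)))
        (fun j' : {j' // s j' = s j} => f' j'.1) = 0 := by
      have h5 : TH57.Thr.ind (Y * blkm A r s C u w (s j))
          = TH57.Thr.ind Y * TH57.Thr.ind (blkm A r s C u w (s j)) := by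
        unfold TH57.Thr.ind
        rw [Matrix.map_mul]
      rw [h5, mact_mul, h3, mact_zero]
    rw [h2] at h4
    have h5 := congrFun h4 ⟨j, rfl⟩
    unfold mact at h5
    rw [Finset.sum_eq_single ⟨j, rfl⟩] at h5
    · have h6 : TH57.Thr.ind (Matrix.diagonal fun _ : {j' // s j' = s j} => δ) ⟨j, rfl⟩ ⟨j, rfl⟩
          = MonoidAlgebra.mapDomainRingHom ℂ (C (s j)).subtype δ := by
        unfold TH57.Thr.ind
        rw [Matrix.map_apply, Matrix.diagonal_apply_eq]
      rw [h6] at h5
      have h7 : C0 (f' j) := by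
        have h8 : f' j = fun g => f j ((w j)⁻¹ * g) := by
          funext g
          simp only [f']
          rw [act_single, one_mul]
        rw [h8]
        exact (hf j).shift (w j)
      have h8 : f' j = 0 := sub_inj htf (C (s j)) (hC _) δ h1 (f' j) h7 h5
      funext g
      have h9 := congrFun h8 (w j * g)
      simp only [f'] at h9
      rw [act_single, one_mul, inv_mul_cancel_left] at h9
      exact h9
    · intro j' _ hj'
      have h6 : TH57.Thr.ind (Matrix.diagonal fun _ : {j' // s j' = s j} => δ) ⟨j, rfl⟩ j' = 0 := by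
        unfold TH57.Thr.ind
        rw [Matrix.map_apply, Matrix.diagonal_apply_ne _ hj'.symm, map_zero]
      rw [h6, map_zero]
      rfl
    · intro h; exact absurd (Finset.mem_univ _) h

end pattern

/-- **The window.** -/
theorem win_alt (htf : TF G) {ι κ : Type} [Fintype ι] [Fintype κ] [DecidableEq ι] [DecidableEq κ]
    (A : Matrix ι κ (MonoidAlgebra ℂ G)) (N : Matrix ι κ (MonoidAlgebra ℤ G)) (hN : Win N)
    (hs : ∀ i j g, (A i j).coeff g ≠ 0 → (N i j).coeff g ≠ 0) :
    (∃ y : κ → MonoidAlgebra ℂ G, y ≠ 0 ∧ A *ᵥ y = 0) ∨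
      ∀ f : κ → G → ℂ, (∀ j, C0 (f j)) → mact A f = 0 → f = 0 := by
  classical
  obtain ⟨ρ, u, C, hC, hst⟩ := struct_win N hN
  have hcyc : ∀ b, IsCyclic (C b) := by
    intro b
    obtain ⟨t, ht⟩ := hC b
    exact TH6.LF.isCyclic_of_finiteIndex (S := C b) (fun g n hn h => Subtype.ext
      (htf g.1 n hn (by simpa using congrArg Subtype.val h))) (Subgroup.zpowers t)
      inferInstance ht
  exact pattern_alt A (fun i => ρ (Sum.inl i)) (fun j => ρ (Sum.inr j)) C
    (fun i => u (Sum.inl i)) (fun j => u (Sum.inr j)) htf hcyc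
    (fun i j g hg => hst i j g (hs i j g hg))

end Pool.Agent.Q175.LG.Az
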