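import Pool.Agent.Q175.LG.Az2

set_option autoImplicit false
set_option linter.unusedSectionVars false
set_option linter.style.haveILetI false

/-! Analytic zero divisors: spaces of functions, dilation (helper175, project LG of helper181). -/

namespace Pool.Agent.Q175.LG.Az

open Matrix TH57.Thr TH6.PF
open Pool.Agent.Q181.LG (Win)
open Pool.Agent.Q181.LR (Struct Eqv)

variable {G : Type} [Group G]

/-- A translation invariant space of functions on `G` which contains the finitely supported functions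
and consists of functions which tend to zero. -/
structure Space (P : (G → ℂ) → Prop) : Prop where
  fin : ∀ f : G → ℂ, {g | f g ≠ 0}.Finite → P f
  add : ∀ f h : G → ℂ, P f → P h → P (fun g => f g + h g)
  smul : ∀ (c : ℂ) (f : G → ℂ), P f → P (fun g => c * f g)
  shift : ∀ (k : G) (f : G → ℂ), P f → P (fun g => f (k⁻¹ * g))
  c0 : ∀ f : G → ℂ, P f → Filter.Tendsto f Filter.cofinite (nhds 0)

variable {P : (G → ℂ) → Prop}

theorem Space.zero (hP : Space P) : P 0 := hP.fin 0 (by simp)

theorem Space.sum (hP : Space P) {κ : Type} (s : Finset κ) (f : κ → G → ℂ)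
    (hf : ∀ j ∈ s, P (f j)) : P (∑ j ∈ s, f j) := by
  classical
  induction s using Finset.induction_on with
  | empty =>
    rw [Finset.sum_empty]
    exact hP.zero
  | insert a s ha ih =>
    rw [Finset.sum_insert ha]
    exact hP.add _ _ (hf a (Finset.mem_insert_self a s))
      (ih fun j hj => hf j (Finset.mem_insert_of_mem hj))

theorem Space.act (hP : Space P) (α : MonoidAlgebra ℂ G) (f : G → ℂ) (hf : P f) :
    P (act G α f) := by
  have h1 : Az.act G α f = ∑ k ∈ α.coeff.support, fun g => α.coeff k * f (k⁻¹ * g) := by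
    funext g
    rw [act_apply, Finset.sum_apply]
  rw [h1]
  exact hP.sum _ _ fun k _ => hP.smul _ _ (hP.shift k f hf)

theorem Space.mact (hP : Space P) {m n : Type} [Fintype n] (A : Matrix m n (MonoidAlgebra ℂ G))
    (f : n → G → ℂ) (hf : ∀ j, P (f j)) (i : m) : P (mact A f i) :=
  hP.sum _ _ fun j _ => hP.act _ _ (hf j)

/-- the matrix `A` has a nonzero kernel vector in the space -/
def Ker (P : (G → ℂ) → Prop) {m n : Type} [Fintype n] (A : Matrix m n (MonoidAlgebra ℂ G)) :
    Prop := ∃ f : n → G → ℂ, (∀ j, P (f j)) ∧ f ≠ 0 ∧ mact A f = 0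

theorem ker_eqv (hP : Space P) {ι κ X : Type} [Fintype ι] [Fintype κ] [Fintype X] [DecidableEq ι]
    [DecidableEq κ] [DecidableEq X] (A : Matrix ι κ (MonoidAlgebra ℂ G))
    (B : Matrix (ι ⊕ X) (κ ⊕ X) (MonoidAlgebra ℂ G)) (h : Eqv A B) : Ker P A ↔ Ker P B := by
  obtain ⟨Q, Q', hB⟩ := h
  have hI : ∀ f : κ ⊕ X → G → ℂ,
      mact (fromBlocks A 0 0 1 : Matrix (ι ⊕ X) (κ ⊕ X) (MonoidAlgebra ℂ G)) f
      = Sum.elim (mact A fun j => f (Sum.inl j)) (fun x => f (Sum.inr x)) := by
    intro f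
    funext i
    unfold mact
    rw [Fintype.sum_sum_type]
    rcases i with i | x
    · have h1 : ∑ x, act G ((fromBlocks A 0 0 1 : Matrix (ι ⊕ X) (κ ⊕ X) (MonoidAlgebra ℂ G))
          (Sum.inl i) (Sum.inr x)) (f (Sum.inr x)) = 0 :=
        Finset.sum_eq_zero fun x _ => by
          change act G 0 _ = 0
          rw [map_zero]
          rfl
      rw [h1, add_zero]
      rfl
    · have h1 : ∑ j, act G ((fromBlocks A 0 0 1 : Matrix (ι ⊕ X) (κ ⊕ X) (MonoidAlgebra ℂ G))
          (Sum.inr x) (Sum.inl j)) (f (Sum.inl j)) = 0 :=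
        Finset.sum_eq_zero fun x _ => by
          change act G 0 _ = 0
          rw [map_zero]
          rfl
      rw [h1, zero_add]
      exact congrFun (mact_one fun x => f (Sum.inr x)) x
  have e1 : Q'.val * Q'⁻¹.val = 1 := Q'.mul_inv
  have e2 : Q⁻¹.val * Q.val = 1 := Q.inv_mul
  constructor
  · rintro ⟨f, hf, h0, h1⟩
    let f' : κ ⊕ X → G → ℂ := Sum.elim f (fun _ => 0)
    have hf' : ∀ j, P (f' j) := by
      rintro (j | x)
      · exact hf j
      · exact hP.zero
    refine ⟨mact Q'⁻¹.val f', fun j => hP.mact _ _ hf' j, ?_, ?_⟩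
    · intro h2
      apply h0
      have h3 : f' = 0 := by
        rw [← mact_one f', ← e1, mact_mul, h2, mact_zero]
      funext j
      exact congrFun h3 (Sum.inl j)
    · rw [hB, Matrix.mul_assoc, mact_mul, mact_mul, ← mact_mul Q'.val, e1, mact_one, hI]
      have h2 : (Sum.elim (mact A fun j => f' (Sum.inl j)) (fun x => f' (Sum.inr x)) :
          ι ⊕ X → G → ℂ) = 0 := by
        funext i
        rcases i with i | x
        · exact congrFun h1 i
        · rfl
      rw [h2, mact_zero]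
  · rintro ⟨f, hf, h0, h1⟩
    have h2 : mact (fromBlocks A 0 0 1 : Matrix (ι ⊕ X) (κ ⊕ X) (MonoidAlgebra ℂ G))
        (mact Q'.val f) = 0 := by
      have h3 : (fromBlocks A 0 0 1 : Matrix (ι ⊕ X) (κ ⊕ X) (MonoidAlgebra ℂ G)) * Q'.val
          = Q⁻¹.val * B := by
        rw [hB, Matrix.mul_assoc, ← Matrix.mul_assoc Q⁻¹.val, e2, Matrix.one_mul]
      rw [← mact_mul, h3, mact_mul, h1, mact_zero]
    rw [hI] at h2
    refine ⟨fun j => mact Q'.val f (Sum.inl j), fun j => hP.mact _ _ hf _, ?_, ?_⟩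
    · intro h3
      apply h0
      have h4 : mact Q'.val f = 0 := by
        funext i
        rcases i with i | x
        · exact congrFun h3 i
        · exact congrFun h2 (Sum.inr x)
      rw [← mact_one f, ← Q'.inv_mul, mact_mul, h4, mact_zero]
    · funext i
      exact congrFun h2 (Sum.inl i)

theorem ker_reindex {ι κ ι' κ' : Type} [Fintype κ] [Fintype κ'] (A : Matrix ι κ (MonoidAlgebra ℂ G))
    (e : ι' ≃ ι) (e' : κ' ≃ κ) : Ker P (A.submatrix e e') ↔ Ker P A := by
  have key : ∀ f : κ → G → ℂ, mact (A.submatrix e e') (fun j => f (e' j))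
      = fun i => mact A f (e i) := by
    intro f
    funext i
    unfold mact
    exact e'.sum_comp fun j => act G (A (e i) j) (f j)
  constructor
  · rintro ⟨f, hf, h0, h1⟩
    refine ⟨fun j => f (e'.symm j), fun j => hf _, ?_, ?_⟩
    · intro h2
      apply h0
      funext j
      have := congrFun h2 (e' j)
      rwa [Equiv.symm_apply_apply] at this
    · have h2 := key fun j => f (e'.symm j)
      simp only [Equiv.symm_apply_apply] at h2
      funext i
      have h3 := congrFun (h2.symm.trans h1) (e.symm i)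
      simp only [Equiv.apply_symm_apply] at h3
      exact h3
  · rintro ⟨f, hf, h0, h1⟩
    refine ⟨fun j => f (e' j), fun j => hf _, ?_, ?_⟩
    · intro h2
      apply h0
      funext j
      have := congrFun h2 (e'.symm j)
      rwa [Equiv.apply_symm_apply] at this
    · rw [key f, h1]
      rfl

/-- finitely supported kernel vectors -/
theorem ker_fin {m n : Type} [Fintype n] (A : Matrix m n (MonoidAlgebra ℂ G))
    (y : n → MonoidAlgebra ℂ G) (hy : y ≠ 0) (h : A *ᵥ y = 0) :
    Ker (fun f : G → ℂ => {g | f g ≠ 0}.Finite) A := by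
  refine ⟨fun j g => (y j).coeff g, fun j => ?_, ?_, ?_⟩
  · exact (y j).coeff.hasFiniteSupport
  · intro h0
    apply hy
    funext j
    ext g
    exact congrFun (congrFun h0 j) g
  · rw [mact_coeff, h]
    rfl

/-- **The window.** -/
theorem ker_window (htf : TF G) (hP : Space P) {ι κ : Type} [Fintype ι] [Fintype κ] [DecidableEq ι]
    [DecidableEq κ] (A : Matrix ι κ (MonoidAlgebra ℂ G)) (N : Matrix ι κ (MonoidAlgebra ℤ G))
    (hN : Win N) (hs : ∀ i j g, (A i j).coeff g ≠ 0 → (N i j).coeff g ≠ 0) (h : Ker P A) :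
    Ker (fun f : G → ℂ => {g | f g ≠ 0}.Finite) A := by
  rcases win_alt htf A N hN hs with ⟨y, hy, hAy⟩ | h1
  · exact ker_fin A y hy hAy
  · obtain ⟨f, hf, h0, h2⟩ := h
    exact absurd (h1 f (fun j => hP.c0 _ (hf j)) h2) h0

theorem space_fin : Space (fun f : G → ℂ => {g | f g ≠ 0}.Finite) where
  fin f h := h
  add f h hf hh := (hf.union hh).subset fun g hg => by
    by_contra hcon
    rw [Set.mem_union, not_or] at hcon
    obtain ⟨h1, h2⟩ := hcon
    change ¬ (f g ≠ 0) at h1
    change ¬ (h g ≠ 0) at h2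
    rw [not_not] at h1 h2
    apply hg
    change f g + h g = 0
    rw [h1, h2, add_zero]
  smul c f hf := hf.subset fun g hg h0 => hg (by
    change c * f g = 0
    rw [h0, mul_zero])
  shift k f hf := by
    have h1 : {g | f (k⁻¹ * g) ≠ 0} = (fun g => k⁻¹ * g) ⁻¹' {g | f g ≠ 0} := rfl
    rw [h1]
    exact hf.preimage (mul_right_injective k⁻¹).injOn
  c0 f hf := by
    refine Filter.Tendsto.congr' ?_ tendsto_const_nhds
    rw [Filter.EventuallyEq, Filter.eventually_cofinite]
    refine hf.subset fun g hg => ?_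
    exact fun h0 => hg h0.symm

theorem space_c0 : Space (fun f : G → ℂ => Filter.Tendsto f Filter.cofinite (nhds 0)) where
  fin f h := space_fin.c0 f h
  add f h hf hh := by
    have := Filter.Tendsto.add hf hh
    rwa [add_zero] at this
  smul c f hf := C0.smul hf c
  shift k f hf := C0.shift hf k
  c0 f hf := hf

theorem space_lp (p : ENNReal) (hp0 : 0 < p) (hp : p < ⊤) :
    Space (fun f : G → ℂ => Memℓp f p) := by
  have hpt : 0 < p.toReal := ENNReal.toReal_pos hp0.ne' hp.ne
  refine ⟨fun f h => ?_, fun f h hf hh => ?_, fun c f hf => ?_, fun k f hf => ?_, fun f hf => ?_⟩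
  · rw [memℓp_gen_iff hpt]
    apply summable_of_hasFiniteSupport
    refine h.subset fun g hg h0 => hg ?_
    change ‖f g‖ ^ p.toReal = 0
    rw [h0, norm_zero, Real.zero_rpow hpt.ne']
  · exact hf.add hh
  · exact hf.const_smul c
  · rw [memℓp_gen_iff hpt] at hf ⊢
    exact (Equiv.mulLeft k⁻¹).summable_iff.2 hf
  · rw [memℓp_gen_iff hpt] at hf
    have h1 := hf.tendsto_cofinite_zero
    rw [tendsto_zero_iff_norm_tendsto_zero]
    have h2 : Filter.Tendsto (fun g => (‖f g‖ ^ p.toReal) ^ (p.toReal)⁻¹) Filter.cofinite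
        (nhds (0 ^ (p.toReal)⁻¹)) :=
      h1.rpow_const (Or.inr (inv_nonneg.2 hpt.le))
    rw [Real.zero_rpow (inv_ne_zero hpt.ne')] at h2
    refine h2.congr fun g => ?_
    rw [← Real.rpow_mul (norm_nonneg _), mul_inv_cancel₀ hpt.ne', Real.rpow_one]

/-- **Dilation.** -/
theorem ker_dil {m n : ℕ} (A : Matrix (Fin m) (Fin n) (MonoidAlgebra ℂ G)) :
    ∃ C : ℕ, ∀ L : ℕ, 1 ≤ L → ∃ (k : ℕ)
      (B : Matrix (Fin (m + k)) (Fin (n + k)) (MonoidAlgebra ℂ G))
      (N : Matrix (Fin (m + k)) (Fin (n + k)) (MonoidAlgebra ℤ G)),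
      k ≤ C * L ∧ (∀ P : (G → ℂ) → Prop, Space P → (Ker P A ↔ Ker P B)) ∧
        (∀ i j g, (B i j).coeff g ≠ 0 → (N i j).coeff g ≠ 0) ∧
        NormLE N (3 / Real.sqrt 2 + (1 / 2) ^ L) := by
  obtain ⟨C, hC⟩ := dil (MonoidHom.id G) A
  refine ⟨C, fun L hL => ?_⟩
  obtain ⟨k, B, N, h1, h2, h3, h4⟩ := hC L hL
  refine ⟨k, B.submatrix finSumFinEquiv.symm finSumFinEquiv.symm,
    N.submatrix finSumFinEquiv.symm finSumFinEquiv.symm, h2, fun P hP => ?_,
    fun i j g hg => h3 _ _ g hg, Pool.Agent.Q181.LR.NormLE_sub _ _ _ _ h4⟩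
  rw [ker_reindex, ker_eqv hP A B h1]

end Pool.Agent.Q175.LG.Az
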