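import Pool.Agent.Q175.LG.Az3

set_option autoImplicit false
set_option linter.unusedSectionVars false
set_option linter.style.haveILetI false

/-! Analytic zero divisors on the free group of rank two: radial functions (helper175, project LG of
helper181). -/

namespace Pool.Agent.Q175.LG.Az

open FreeGroup

/-- the free group of rank two -/
abbrev F2 : Type := FreeGroup (Fin 2)

/-- the sum of the generators and their inverses -/
noncomputable def chi : MonoidAlgebra ℂ F2 :=
  ∑ c : Fin 2 × Bool, MonoidAlgebra.single (FreeGroup.mk [c]) 1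

theorem toWord_cons (c : Fin 2 × Bool) (g : F2) :
    (FreeGroup.mk [c] * g).toWord = if g.toWord.head? = some (c.1, !c.2) then g.toWord.tail
      else c :: g.toWord := by
  have h1 : FreeGroup.mk [c] * g = FreeGroup.mk (c :: g.toWord) := by
    conv_lhs => rw [← FreeGroup.mk_toWord (x := g)]
    rw [FreeGroup.mul_mk]
    rfl
  rw [h1, FreeGroup.toWord_mk, FreeGroup.reduce.cons, FreeGroup.reduce_toWord]
  cases hw : g.toWord with
  | nil => simp
  | cons d l =>
    obtain ⟨c1, c2⟩ := c
    obtain ⟨d1, d2⟩ := d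
    simp only [List.head?_cons, Option.some.injEq, Prod.mk.injEq, List.tail_cons]
    by_cases h1 : c1 = d1
    · subst h1
      cases c2 <;> cases d2 <;> simp
    · rw [if_neg (fun h => h1 h.1), if_neg (fun h => h1 h.1.symm)]

theorem norm_cons (c : Fin 2 × Bool) (g : F2) :
    (FreeGroup.mk [c] * g).norm = if g.toWord.head? = some (c.1, !c.2) then g.norm - 1
      else g.norm + 1 := by
  unfold FreeGroup.norm
  rw [toWord_cons]
  split_ifs
  · rw [List.length_tail]
  · rw [List.length_cons]

theorem act_chi (f : F2 → ℂ) (g : F2) :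
    act F2 chi f g = ∑ c : Fin 2 × Bool, f (FreeGroup.mk [c] * g) := by
  unfold chi
  rw [map_sum, LinearMap.sum_apply, Finset.sum_apply]
  have h1 : ∀ c : Fin 2 × Bool, act F2 (MonoidAlgebra.single (FreeGroup.mk [c]) 1) f g
      = f (FreeGroup.mk [(c.1, !c.2)] * g) := by
    intro c
    rw [act_single, one_mul, FreeGroup.inv_mk]
    rfl
  rw [Finset.sum_congr rfl fun c _ => h1 c]
  let e : Fin 2 × Bool ≃ Fin 2 × Bool :=
    { toFun := fun c => (c.1, !c.2)
      invFun := fun c => (c.1, !c.2)
      left_inv := fun c => by simp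
      right_inv := fun c => by simp }
  exact e.sum_comp fun c => f (FreeGroup.mk [c] * g)

/-- the radial function -/
noncomputable def phi (n : ℕ) : ℂ := if Even n then (-1 / 3) ^ (n / 2) else 0

theorem phi_rec (n : ℕ) (hn : 1 ≤ n) : phi (n - 1) + 3 * phi (n + 1) = 0 := by
  obtain ⟨k, rfl⟩ : ∃ k, n = k + 1 := ⟨n - 1, by omega⟩
  rw [Nat.add_sub_cancel]
  unfold phi
  rcases Nat.even_or_odd k with h | h
  · rw [if_pos h, if_pos (by rw [show k + 1 + 1 = k + 2 by ring]; exact h.add (by decide))]
    have h2 : (k + 1 + 1) / 2 = k / 2 + 1 := by omega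
    rw [h2, pow_succ]
    ring
  · have h1 : ¬ Even k := Nat.not_even_iff_odd.2 h
    have h2 : ¬ Even (k + 1 + 1) := by
      rw [Nat.even_add_one, Nat.even_add_one, not_not]
      exact h1
    rw [if_neg h1, if_neg h2]
    ring

theorem chi_radial : act F2 chi (fun g => phi g.norm) = 0 := by
  funext g
  rw [act_chi]
  have h1 : ∀ c : Fin 2 × Bool, phi (FreeGroup.mk [c] * g).norm
      = if g.toWord.head? = some (c.1, !c.2) then phi (g.norm - 1) else phi (g.norm + 1) := by
    intro c
    rw [norm_cons]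
    split_ifs <;> rfl
  rw [Finset.sum_congr rfl fun c _ => h1 c]
  cases hw : g.toWord with
  | nil =>
    have h2 : g.norm = 0 := by unfold FreeGroup.norm; rw [hw]; rfl
    rw [h2]
    simp [phi]
  | cons d l =>
    have h2 : 1 ≤ g.norm := by unfold FreeGroup.norm; rw [hw]; simp
    have h3 := phi_rec g.norm h2
    obtain ⟨d1, d2⟩ := d
    have h4 : ∀ c : Fin 2 × Bool, (if ((d1, d2) :: l).head? = some (c.1, !c.2)
        then phi (g.norm - 1) else phi (g.norm + 1))
        = phi (g.norm + 1) + if c = (d1, !d2) then phi (g.norm - 1) - phi (g.norm + 1) else 0 := by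
      rintro ⟨c1, c2⟩
      simp only [List.head?_cons, Option.some.injEq, Prod.mk.injEq]
      by_cases h5 : c1 = d1
      · subst h5
        cases c2 <;> cases d2 <;> simp
      · rw [if_neg (fun h => h5 h.1.symm), if_neg (fun h => h5 h.1), add_zero]
    rw [Finset.sum_congr rfl fun c _ => h4 c, Finset.sum_add_distrib, Finset.sum_ite_eq']
    simp only [Finset.mem_univ, if_true, Finset.sum_const, Finset.card_univ, Fintype.card_prod,
      Fintype.card_fin, Fintype.card_bool]
    rw [Pi.zero_apply, ← h3]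
    simp only [nsmul_eq_mul]
    push_cast
    ring

theorem phi_norm (n : ℕ) : ‖phi n‖ ≤ (1 / 3) ^ (n / 2) := by
  unfold phi
  split_ifs
  · rw [norm_pow, norm_div, norm_neg, NormOneClass.norm_one]
    norm_num
  · rw [norm_zero]
    positivity

theorem radial_c0 : Filter.Tendsto (fun g : F2 => phi g.norm) Filter.cofinite (nhds 0) := by
  rw [Metric.tendsto_nhds]
  intro ε hε
  obtain ⟨N, hN⟩ := exists_pow_lt_of_lt_one hε (by norm_num : (1 / 3 : ℝ) < 1)
  rw [Filter.eventually_cofinite]
  have hfin : {l : List (Fin 2 × Bool) | l.length ≤ 2 * N}.Finite :=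
    List.finite_length_le (Fin 2 × Bool) (2 * N)
  refine (hfin.preimage (FreeGroup.toWord_injective.injOn)).subset fun g hg => ?_
  change g.toWord.length ≤ 2 * N
  by_contra hcon
  apply hg
  rw [dist_zero_right]
  refine (phi_norm g.norm).trans_lt (lt_of_le_of_lt ?_ hN)
  have h1 : N ≤ g.norm / 2 := by
    unfold FreeGroup.norm
    omega
  exact pow_le_pow_of_le_one (by norm_num) (by norm_num) h1

/-- no finitely supported kernel -/
theorem chi_fin (f : F2 → ℂ) (hf : {g | f g ≠ 0}.Finite) (h : act F2 chi f = 0) : f = 0 := by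
  by_contra h0
  obtain ⟨g₀, hg₀⟩ := Function.ne_iff.1 h0
  obtain ⟨g, hg, hmax⟩ := Set.exists_max_image {g | f g ≠ 0} FreeGroup.norm hf ⟨g₀, hg₀⟩
  obtain ⟨c, hc⟩ : ∃ c : Fin 2 × Bool, g.toWord.head? ≠ some (c.1, !c.2) := by
    cases hw : g.toWord with
    | nil => exact ⟨(0, true), by simp⟩
    | cons d l =>
      refine ⟨d, ?_⟩
      obtain ⟨d1, d2⟩ := d
      cases d2 <;> simp
  have h1 := congrFun h (FreeGroup.mk [c] * g)
  rw [act_chi] at h1
  have hw : (FreeGroup.mk [c] * g).toWord = c :: g.toWord := by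
    rw [toWord_cons, if_neg hc]
  have hn : (FreeGroup.mk [c] * g).norm = g.norm + 1 := by
    rw [norm_cons, if_neg hc]
  rw [Finset.sum_eq_single (c.1, !c.2)] at h1
  · have h2 : FreeGroup.mk [(c.1, !c.2)] * (FreeGroup.mk [c] * g) = g := by
      rw [← mul_assoc]
      have h3 : FreeGroup.mk [(c.1, !c.2)] * FreeGroup.mk [c] = (1 : F2) := by
        have h4 : (FreeGroup.mk [(c.1, !c.2)] : F2) = (FreeGroup.mk [c])⁻¹ := by
          rw [FreeGroup.inv_mk]
          rfl
        rw [h4, inv_mul_cancel]
      rw [h3, one_mul]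
    rw [h2] at h1
    exact hg h1
  · intro c' _ hc'
    by_contra h2
    have h3 := hmax _ h2
    rw [norm_cons, if_neg, hn] at h3
    · omega
    · rw [hw, List.head?_cons, Option.some.injEq]
      intro h4
      apply hc'
      obtain ⟨c1, c2⟩ := c'
      rw [h4]
      simp
  · intro h; exact absurd (Finset.mem_univ _) h

end Pool.Agent.Q175.LG.Az
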