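import Pool.Agent.Q175.LG.Wn
import Pool.Agent.TH6.PF.OddD

set_option autoImplicit false
set_option linter.unusedSectionVars false
set_option linter.style.haveILetI false

/-! Quadratic forms over group rings of rings with involution, and isometries of hyperbolic forms, whose
support is controlled by an integral matrix of norm in the window above `3 / √2` (the last steps of the
proofs are those of `TH6.PF`; helper175, project LG of helper181). -/

namespace Pool.Agent.Q175.LG

open Matrix TH57.Thr TH6.PF TH6.LF Subgroup SimpleGraph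
open Pool.Agent.Q181.LG (Win Gapped)

section stab

variable {G : Type} [Group G] {ι : Type} [Fintype ι] [DecidableEq ι]

theorem stab_win (A : Matrix ι ι (MonoidAlgebra ℤ G)) (h : Win A) (b : Vx G ι ι) :
    IsVC (stab A b) := by
  rcases h with h | ⟨K, hK, h⟩
  · rw [min_self] at h
    exact Pool.Agent.Q181.LR.stab_vc_of A b _ (Pool.Agent.Q181.LW.noTripod_size A h b)
  · exact Pool.Agent.Q181.LR.stab_vc_of A b _ (Pool.Agent.Q26.LG.t_notri Pool.Agent.Q190.LG.t_g1
      Pool.Agent.Q26.LG.t_tent G ι ι A K hK h b)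

end stab

section sym

variable {G : Type} [Group G] {ι : Type} (A : Matrix ι ι (MonoidAlgebra ℤ G))
  (hsym : ∀ i j h, (A i j).coeff h ≠ 0 → (A j i).coeff h⁻¹ ≠ 0)

theorem stb_vc [Fintype ι] [DecidableEq ι]
    (hS : ∀ b, IsVC (stab A b)) (i : ι) :
    IsVC (stb A hsym i) := by
  classical
  have hle : stab A (Sum.inl (1, i)) ≤ stb A hsym i := by
    intro g hg
    rw [mem_stab] at hg
    left
    simpa [TH57.Thr.mv] using hg
  refine isVC_of_relIndex (stab A (Sum.inl (1, i))) (stb A hsym i) hle ?_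
    (hS (Sum.inl (1, i)))
  have hfin : ((stab A (Sum.inl (1, i))).subgroupOf (stb A hsym i)).FiniteIndex := by
    have hkey : ∀ s t : stb A hsym i, s.1 ∉ stab A (Sum.inl (1, i)) →
        t.1 ∉ stab A (Sum.inl (1, i)) → (s.1)⁻¹ * t.1 ∈ stab A (Sum.inl (1, i)) := by
      have aux : ∀ s : stb A hsym i, s.1 ∉ stab A (Sum.inl (1, i)) →
          (gr A).Reachable (Sum.inl (1, i)) (Sum.inr (s.1, i)) := by
        intro s hs
        rcases s.2 with h | h
        · exact absurd (by rw [mem_stab]; simpa [TH57.Thr.mv] using h) hs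
        · exact h
      intro s t hs ht
      have h1 := aux s hs
      have h2 := aux t ht
      have h3 := reachable_mv A (s.1)⁻¹ (h1.symm.trans h2)
      simp only [TH57.Thr.mv, inv_mul_cancel] at h3
      have h4 := reachable_sw A hsym h3
      rw [mem_stab]
      simpa [TH57.Thr.mv, sw] using h4
    rw [Subgroup.finiteIndex_iff_finite_quotient]
    refine Finite.of_injective (β := Prop)
      (fun x : (stb A hsym i) ⧸ ((stab A (Sum.inl (1, i))).subgroupOf (stb A hsym i)) =>
        x = QuotientGroup.mk 1) ?_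
    intro x y hxy
    induction x using QuotientGroup.induction_on with | H s => ?_
    induction y using QuotientGroup.induction_on with | H t => ?_
    simp only [eq_iff_iff] at hxy
    rw [eq_comm (a := (QuotientGroup.mk s : _ ⧸ _)),
      eq_comm (a := (QuotientGroup.mk t : _ ⧸ _))] at hxy
    rw [QuotientGroup.eq, QuotientGroup.eq] at hxy
    simp only [inv_one, one_mul, mem_subgroupOf] at hxy
    rw [QuotientGroup.eq, mem_subgroupOf]
    by_cases h : s.1 ∈ stab A (Sum.inl (1, i))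
    · exact mul_mem (inv_mem h) (hxy.1 h)
    · exact hkey s t h (fun h' => h (hxy.2 h'))
  exact hfin.index_ne_zero

/-- The structure theorem for symmetric patterns, all groups. -/
theorem sym_structure_vc [Fintype ι] [DecidableEq ι]
    (A : Matrix ι ι (MonoidAlgebra ℤ G))
    (hsym : ∀ i j h, (A i j).coeff h ≠ 0 → (A j i).coeff h⁻¹ ≠ 0)
    (hS : ∀ b, IsVC (stab A b)) :
    ∃ (ρ : ι → ι) (u : ι → G) (C : ι → Subgroup G),
      (∀ b, IsVC (C b)) ∧ ∀ i j h, (A i j).coeff h ≠ 0 →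
        ρ i = ρ j ∧ u i * h * (u j)⁻¹ ∈ C (ρ i) := by
  classical
  let st : Setoid ι :=
    { r := fun p q => ∃ g : G, Rl A (1, p) (g, q)
      iseqv := by
        refine ⟨fun p => ⟨1, Rl.refl A _⟩, ?_, ?_⟩
        · rintro p q ⟨g, hg⟩
          refine ⟨g⁻¹, ?_⟩
          have := Rl.mv A g⁻¹ hg
          simp only [mul_one, inv_mul_cancel] at this
          exact Rl.symm A hsym this
        · rintro p q r ⟨g, hg⟩ ⟨h, hh⟩
          refine ⟨g * h, Rl.trans A hsym hg ?_⟩
          have := Rl.mv A g hh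
          simpa only [mul_one] using this }
  let ρ : ι → ι := fun p => (Quotient.mk st p).out
  have hρ : ∀ p, ∃ g : G, Rl A (1, ρ p) (g, p) := fun p =>
    Quotient.exact (Quotient.out_eq (Quotient.mk st p))
  choose u hu using hρ
  refine ⟨ρ, u, fun b => stb A hsym b, fun b => stb_vc A hsym hS _, ?_⟩
  intro i j h hne
  have hadj : Rl A (1, i) (h, j) := by
    right
    apply SimpleGraph.Adj.reachable
    rw [gr_adj]
    simp only [wt]
    simpa using hne
  have heq : ρ i = ρ j := by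
    have : Quotient.mk st i = Quotient.mk st j := Quotient.sound ⟨h, hadj⟩
    simp only [ρ, this]
  refine ⟨heq, ?_⟩
  rw [mem_stb]
  have h1 := hu i
  have h2 := Rl.mv A (u i) hadj
  have h3 := hu j
  rw [← heq] at h3
  have h4 := Rl.mv A (u i * h * (u j)⁻¹) h3
  simp only [mul_one, inv_mul_cancel_right] at h2 h4
  exact Rl.trans A hsym (Rl.trans A hsym h1 h2) (Rl.symm A hsym h4)

end sym

section br

variable {G : Type} [Group G] {κ : Type} (br : κ → κ) (hbr : ∀ i, br (br i) = i)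
  (A : Matrix κ κ (MonoidAlgebra ℤ G))
  (hU : ∀ i j h, (A i j).coeff h ≠ 0 → (gr A).Reachable (Sum.inl (1, br i)) (Sum.inr (h, br j)))

theorem st2_vc [Fintype κ] [DecidableEq κ]
    (hS : ∀ b, IsVC (stab A b)) (b : Vx G κ κ) :
    IsVC (st2 br hbr A hU b) := by
  classical
  have hle : stab A b ≤ st2 br hbr A hU b := by
    intro g hg
    rw [mem_stab] at hg
    exact Or.inl hg
  refine isVC_of_relIndex (stab A b) (st2 br hbr A hU b) hle ?_ (hS b)
  have hfin : ((stab A b).subgroupOf (st2 br hbr A hU b)).FiniteIndex := by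
    have hkey : ∀ s t : st2 br hbr A hU b, s.1 ∉ stab A b →
        t.1 ∉ stab A b → (s.1)⁻¹ * t.1 ∈ stab A b := by
      have aux : ∀ s : st2 br hbr A hU b, s.1 ∉ stab A b →
          (gr A).Reachable b (bv br (TH57.Thr.mv s.1 b)) := by
        intro s hs
        rcases s.2 with h | h
        · exact absurd (by rw [mem_stab]; exact h) hs
        · exact h
      intro s t hs ht
      have h1 := reachable_bv br A hU ((aux s hs).symm.trans (aux t ht))
      rw [bv_bv br hbr, bv_bv br hbr] at h1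
      have h3 := reachable_mv A (s.1)⁻¹ h1
      rw [← mv_mul, ← mv_mul, inv_mul_cancel, mv_one] at h3
      rw [mem_stab]
      exact h3
    rw [Subgroup.finiteIndex_iff_finite_quotient]
    refine Finite.of_injective (β := Prop)
      (fun x : (st2 br hbr A hU b) ⧸ ((stab A b).subgroupOf (st2 br hbr A hU b)) =>
        x = QuotientGroup.mk 1) ?_
    intro x y hxy
    induction x using QuotientGroup.induction_on with | H s => ?_
    induction y using QuotientGroup.induction_on with | H t => ?_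
    simp only [eq_iff_iff] at hxy
    rw [eq_comm (a := (QuotientGroup.mk s : _ ⧸ _)),
      eq_comm (a := (QuotientGroup.mk t : _ ⧸ _))] at hxy
    rw [QuotientGroup.eq, QuotientGroup.eq] at hxy
    simp only [inv_one, one_mul, mem_subgroupOf] at hxy
    rw [QuotientGroup.eq, mem_subgroupOf]
    by_cases h : s.1 ∈ stab A b
    · exact mul_mem (inv_mem h) (hxy.1 h)
    · exact hkey s t h (fun h' => h (hxy.2 h'))
  exact hfin.index_ne_zero

include hbr hU in
/-- The structure theorem for patterns with an involution. -/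
theorem br_structure_vc [Fintype κ] [DecidableEq κ]
    (hS : ∀ b, IsVC (stab A b)) :
    ∃ (ρ : κ ⊕ κ → κ ⊕ κ) (u : κ ⊕ κ → G) (C : κ ⊕ κ → Subgroup G),
      (∀ b, IsVC (C b)) ∧ (∀ p, ρ (bp br p) = ρ p) ∧ (∀ p, u (bp br p) = u p) ∧
      ∀ i j h, (A i j).coeff h ≠ 0 → ρ (Sum.inl i) = ρ (Sum.inr j) ∧
        u (Sum.inl i) * h * (u (Sum.inr j))⁻¹ ∈ C (ρ (Sum.inl i)) := by
  classical
  let st : Setoid (κ ⊕ κ) :=
    { r := fun p q => ∃ g : G, R2 br A (bs p) (TH57.Thr.mv g (bs q))
      iseqv := by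
        refine ⟨fun p => ⟨1, by rw [mv_one]; exact R2.refl br A _⟩, ?_, ?_⟩
        · rintro p q ⟨g, hg⟩
          refine ⟨g⁻¹, ?_⟩
          have := R2.mv br A g⁻¹ hg
          rw [← mv_mul, inv_mul_cancel, mv_one] at this
          exact R2.symm br hbr A hU this
        · rintro p q r ⟨g, hg⟩ ⟨h, hh⟩
          refine ⟨g * h, ?_⟩
          rw [mv_mul]
          exact R2.trans br hbr A hU hg (R2.mv br A g hh) }
  let ρ : κ ⊕ κ → κ ⊕ κ := fun p => (Quotient.mk st p).out
  have hρ : ∀ p, ∃ g : G, R2 br A (bs (ρ p)) (TH57.Thr.mv g (bs p)) := fun p =>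
    Quotient.exact (Quotient.out_eq (Quotient.mk st p))
  have hρbr : ∀ p, ρ (bp br p) = ρ p := by
    intro p
    have h1 : Quotient.mk st (bp br p) = Quotient.mk st p := by
      apply Quotient.sound
      refine ⟨1, ?_⟩
      rw [mv_one, bs_bp]
      exact R2.symm br hbr A hU ((R2_bv br hbr A).2 (R2.refl br A _))
    simp only [ρ, h1]
  let u : κ ⊕ κ → G := fun p =>
    Classical.epsilon fun g => R2 br A (bs (ρ p)) (TH57.Thr.mv g (bs p))
  have hu : ∀ p, R2 br A (bs (ρ p)) (TH57.Thr.mv (u p) (bs p)) := fun p =>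
    Classical.epsilon_spec (hρ p)
  have hubr : ∀ p, u (bp br p) = u p := by
    intro p
    have h1 : (fun g => R2 br A (bs (ρ (bp br p))) (TH57.Thr.mv g (bs (bp br p))))
        = fun g => R2 br A (bs (ρ p)) (TH57.Thr.mv g (bs p)) := by
      funext g
      rw [hρbr, bs_bp, ← bv_mv]
      exact propext (R2_bv br hbr A)
    simp only [u, h1]
  refine ⟨ρ, u, fun b => st2 br hbr A hU (bs b), fun b => st2_vc br hbr A hU hS _,
    hρbr, hubr, ?_⟩
  intro i j h hne
  have hadj : R2 br A (bs (Sum.inl i)) (TH57.Thr.mv h (bs (Sum.inr j))) := by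
    left
    apply SimpleGraph.Adj.reachable
    rw [gr_adj]
    simp only [bs, TH57.Thr.mv, wt]
    simpa using hne
  have heq : ρ (Sum.inl i) = ρ (Sum.inr j) := by
    have : Quotient.mk st (Sum.inl i) = Quotient.mk st (Sum.inr j) := Quotient.sound ⟨h, hadj⟩
    simp only [ρ, this]
  refine ⟨heq, ?_⟩
  rw [mem_st2]
  have h1 := hu (Sum.inl i)
  have h2 := R2.mv br A (u (Sum.inl i)) hadj
  have h3 := hu (Sum.inr j)
  rw [← heq] at h3
  have h4 := R2.mv br A (u (Sum.inl i) * h * (u (Sum.inr j))⁻¹) h3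
  have e : TH57.Thr.mv (u (Sum.inl i) * h * (u (Sum.inr j))⁻¹)
      (TH57.Thr.mv (u (Sum.inr j)) (bs (Sum.inr j)))
      = TH57.Thr.mv (u (Sum.inl i)) (TH57.Thr.mv h (bs (Sum.inr j) : Vx G κ κ)) := by
    rw [← mv_mul, ← mv_mul]
    congr 1
    group
  rw [e] at h4
  exact R2.trans br hbr A hU (R2.trans br hbr A hU h1 h2) (R2.symm br hbr A hU h4)

end br

section odd

variable {R : Type} [Ring R] [StarRing R] {G : Type} [Group G] {m : Type} [Fintype m]
  [DecidableEq m]

/-- Isometries with a structure. -/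
theorem odd_core (ε : ℤ) (hε : ε * ε = 1)
    (α : (Matrix (m ⊕ m) (m ⊕ m) (MonoidAlgebra R G))ˣ) (hα : QIso ε α.val)
    (A : Matrix (m ⊕ m) (m ⊕ m) (MonoidAlgebra ℤ G))
    (hsupp : ∀ i j g, (A i j).coeff g ≠ 0 ↔ (α.val i j).coeff g ≠ 0)
    (hS : ∀ b, IsVC (stab A b)) : α ∈ VCIso R G m ε := by
  classical
  have hU : ∀ i j h, (A i j).coeff h ≠ 0 →
      (gr A).Reachable (Sum.inl (1, bsw i)) (Sum.inr (h, bsw j)) := by
    intro i j h hne
    have h1 := hα.inv_supp ε hε α i j h ((hsupp i j h).1 hne)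
    have h2 := inv_reachable A α (fun i j g h => (hsupp i j g).2 h) (bsw j) (bsw i) h⁻¹ h1
    rwa [inv_inv] at h2
  obtain ⟨ρ, u, C, hC, hρ, hu, hst⟩ := br_structure_vc bsw bsw_bsw A hU hS
  set a : m ⊕ m → G := fun i => u (Sum.inl i) with ha
  set b : m ⊕ m → G := fun j => u (Sum.inr j) with hb
  have haa : ∀ c, a (Sum.inl c) = a (Sum.inr c) := fun c => (hu (Sum.inl (Sum.inl c))).symm
  have hbb : ∀ c, b (Sum.inl c) = b (Sum.inr c) := fun c => (hu (Sum.inr (Sum.inl c))).symm
  set B : (Matrix (m ⊕ m) (m ⊕ m) (MonoidAlgebra R G))ˣ := dmU R a * α * (dmU R b)⁻¹ with hBd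
  have hBs : ∀ i j g, (B.val i j).coeff g ≠ 0 →
      ρ (Sum.inl i) = ρ (Sum.inr j) ∧ g ∈ C (ρ (Sum.inl i)) := by
    intro i j g hg
    rw [hBd, Units.val_mul, Units.val_mul, coeff_dmU] at hg
    have h1 := hst i j _ ((hsupp _ _ _).2 hg)
    refine ⟨h1.1, ?_⟩
    have h2 := h1.2
    have h3 : u (Sum.inl i) * ((a i)⁻¹ * g * b j) * (u (Sum.inr j))⁻¹ = g := by
      rw [ha, hb]; group
    rwa [h3] at h2
  have hBQ : QIso ε B.val := by
    rw [hBd, Units.val_mul, Units.val_mul]
    exact ((QIso_dmU ε a haa).mul ε _ _ hα).mul ε _ _ ((QIso_dmU ε b hbb).inv ε _)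
  let φ : MonoidAlgebra R G →+* MonoidAlgebra R G :=
    MonoidAlgebra.mapDomainRingHom R (1 : G →* G)
  have hφ : ∀ x g, (φ x).coeff g ≠ 0 → g = 1 := by
    intro x g hg
    by_contra h
    apply hg
    change (MonoidAlgebra.mapDomain (1 : G →* G) x).coeff g = 0
    rw [MonoidAlgebra.coeff_mapDomain]
    apply Finsupp.mapDomain_of_notMem_range
    rintro ⟨y, hy⟩
    exact h hy.symm
  let T : (Matrix (m ⊕ m) (m ⊕ m) (MonoidAlgebra R G))ˣ := Units.map (mpm φ) B⁻¹
  have hTv : T.val = B⁻¹.val.map φ := rfl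
  have hTQ : QIso ε T.val := QIso_map ε _ (hBQ.inv ε B)
  have hT : T ∈ VCIso R G m ε := by
    refine mem_VCIso ε (β := Unit) (fun _ => ()) (fun _ => rfl) (fun _ => ⊥)
      (fun _ => isVC_bot) T ?_ hTQ
    intro i j g hg
    refine ⟨rfl, ?_⟩
    have := hφ (B⁻¹.val i j) g hg
    rw [this]
    exact one_mem _
  have hinv := inv_pattern (fun i => ρ (Sum.inl i)) (fun j => ρ (Sum.inr j)) C
    B.val B⁻¹.val B.mul_inv B.inv_mul hBs
  have hBT : B * T ∈ VCIso R G m ε := by
    refine mem_VCIso ε (fun i => ρ (Sum.inl i)) (fun c => (hρ (Sum.inl (Sum.inl c))).symm) C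
      (fun i => hC _) _ ?_ ?_
    · intro i k g hg
      rw [Units.val_mul, Matrix.mul_apply] at hg
      obtain ⟨j, hj⟩ : ∃ j, (B.val i j * T.val j k).coeff g ≠ 0 := by
        by_contra hcon
        push Not at hcon
        apply hg
        have h1 : (∑ j, B.val i j * T.val j k).coeff g
            = ∑ j, (B.val i j * T.val j k).coeff g := by
          rw [MonoidAlgebra.coeff_sum, Finsupp.finsetSum_apply]
        rw [h1]
        exact Finset.sum_eq_zero fun j _ => hcon j
      have h2 : B⁻¹.val j k ≠ 0 := by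
        intro h0
        apply hj
        change (B.val i j * φ (B⁻¹.val j k)).coeff g = 0
        rw [h0, map_zero, mul_zero]
        rfl
      have h3 : ρ (Sum.inr j) = ρ (Sum.inl k) := by
        by_contra h4
        apply h2
        exact eq_zero_of fun g hg => h4 (hinv j k g hg).1
      have h5 : T.val j k = MonoidAlgebra.single 1 ((T.val j k).coeff 1) := by
        ext g'
        rw [MonoidAlgebra.coeff_single, Finsupp.single_apply]
        split_ifs with h6
        · rw [h6]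
        · by_contra h7
          exact h6 (hφ _ g' h7).symm
      rw [h5, MonoidAlgebra.coeff_mul_single_apply, inv_one, mul_one] at hj
      have h6 := hBs i j g (left_ne_zero_of_mul hj)
      exact ⟨h6.1.trans h3, h6.2⟩
    · rw [Units.val_mul]
      exact hBQ.mul ε _ _ hTQ
  have : α = (dmU R a)⁻¹ * ((B * T) * T⁻¹) * dmU R b := by
    rw [hBd]; group
  rw [this]
  exact mul_mem (mul_mem (inv_mem (dmU_mem_VCIso ε a haa)) (mul_mem hBT (inv_mem hT)))
    (dmU_mem_VCIso ε b hbb)

end odd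

section forms

variable {R : Type} [Ring R] [StarRing R] {G : Type} [Group G] (w : G →* ℤˣ)
variable {κ : Type} [Fintype κ] [DecidableEq κ]

/-- The integral matrix `A` controls the `ε`-quadratic form `ψ`: the support of `A` is symmetric and
contains the support of the symmetrisation `ψ + ε ψ^*` and the elements of order two which occur in the
diagonal entries of `ψ`. -/
def Controls (ε : ℤ) (A : Matrix κ κ (MonoidAlgebra ℤ G)) (ψ : Matrix κ κ (MonoidAlgebra R G)) :
    Prop :=
  (∀ i j g, (A i j).coeff g ≠ 0 → (A j i).coeff g⁻¹ ≠ 0) ∧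
  (∀ i j g, ((ψ + ε • sadj w ψ) i j).coeff g ≠ 0 → (A i j).coeff g ≠ 0) ∧
  ∀ i g, orderOf g = 2 → (ψ i i).coeff g ≠ 0 → (A i i).coeff g ≠ 0

theorem coeff_sadj (M : Matrix κ κ (MonoidAlgebra R G)) (i j : κ) (g : G) :
    (sadj w M i j).coeff g = ((w g : ℤˣ) : ℤ) • star ((M j i).coeff g⁻¹) := by
  rw [sadj_apply, coeff_sbar]

/-- a form with trivial symmetrisation and without diagonal involutions is a boundary -/
theorem boundary_of (ε : ℤ) (N : Matrix κ κ (MonoidAlgebra R G)) (h0 : N + ε • sadj w N = 0)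
    (h1 : ∀ i g, g * g = 1 → (N i i).coeff g = 0) :
    ∃ χ : Matrix κ κ (MonoidAlgebra R G), N = χ - ε • sadj w χ := by
  classical
  letI : LinearOrder (κ × κ × G) := linearOrderOfSTO WellOrderingRel
  let χ : Matrix κ κ (MonoidAlgebra R G) := Matrix.of fun i j =>
    MonoidAlgebra.ofCoeff ((N i j).coeff.filter fun g => (i, j, g) < (j, i, g⁻¹))
  have hχ : ∀ i j g, (χ i j).coeff g = if (i, j, g) < (j, i, g⁻¹) then (N i j).coeff g else 0 := by
    intro i j g
    change ((N i j).coeff.filter fun g => (i, j, g) < (j, i, g⁻¹)) g = _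
    rw [Finsupp.filter_apply]
  have hN : ∀ i j g, (N i j).coeff g
      + ε • (((w g : ℤˣ) : ℤ) • star ((N j i).coeff g⁻¹)) = 0 := by
    intro i j g
    have h2 := congrArg (fun M => (M i j).coeff g) h0
    simpa only [Matrix.add_apply, Matrix.smul_apply, MonoidAlgebra.coeff_add, Finsupp.add_apply,
      MonoidAlgebra.coeff_smul, Finsupp.smul_apply, coeff_sadj, Matrix.zero_apply,
      MonoidAlgebra.coeff_zero, Finsupp.zero_apply] using h2
  refine ⟨χ, ?_⟩
  ext i j g
  rw [Matrix.sub_apply, MonoidAlgebra.coeff_sub, Finsupp.sub_apply, Matrix.smul_apply,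
    MonoidAlgebra.coeff_smul, Finsupp.smul_apply, coeff_sadj, hχ, hχ, inv_inv]
  rcases lt_trichotomy (i, j, g) (j, i, g⁻¹) with h | h | h
  · rw [if_pos h, if_neg (not_lt.2 h.le), star_zero, smul_zero, smul_zero, sub_zero]
  · rw [if_neg (by rw [← h]; exact lt_irrefl _), if_neg (by rw [← h]; exact lt_irrefl _),
      star_zero, smul_zero, smul_zero, sub_zero]
    have h3 : i = j := (Prod.ext_iff.1 h).1
    have h4 : g = g⁻¹ := (Prod.ext_iff.1 (Prod.ext_iff.1 h).2).2
    subst h3
    refine h1 i g ?_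
    nth_rewrite 2 [h4]
    exact mul_inv_cancel g
  · rw [if_neg (not_lt.2 h.le), if_pos h, zero_sub]
    exact eq_neg_of_add_eq_zero_left (hN i j g)

/-- **Quadratic forms with a structure.** -/
theorem forms_core (ε : ℤ) (ψ : Matrix κ κ (MonoidAlgebra R G))
    (A : Matrix κ κ (MonoidAlgebra ℤ G)) (hA : Controls w ε A ψ) (hS : ∀ b, IsVC (stab A b)) :
    ∃ (ρ : κ → κ) (u : κ → G) (C : κ → Subgroup G)
      (θ : ∀ a, Matrix {i // ρ i = a} {i // ρ i = a} (MonoidAlgebra R (C a)))
      (χ : Matrix κ κ (MonoidAlgebra R G)),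
      (∀ a, IsVC (C a)) ∧
      (dmU R u).val * ψ * sadj w (dmU R u).val = blockSum ρ ρ C θ + (χ - ε • sadj w χ) ∧
      (IsUnit (ψ + ε • sadj w ψ) →
        ∀ a, IsUnit (θ a + ε • sadj (w.comp (C a).subtype) (θ a))) := by
  classical
  obtain ⟨hsym, hLs, hdg⟩ := hA
  obtain ⟨ρ, u, C, hC, hst⟩ := sym_structure_vc A hsym hS
  set D := dmU R u with hD
  set φ := D.val * ψ * sadj w D.val with hφ
  have hLφ : φ + ε • sadj w φ = D.val * (ψ + ε • sadj w ψ) * sadj w D.val := by
    rw [hφ, sadj_mul, sadj_mul, sadj_sadj, Matrix.mul_add, Matrix.add_mul,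
      Matrix.mul_smul, Matrix.smul_mul, Matrix.mul_assoc D.val (sadj w ψ)]
  have hLφs : ∀ i j g, ((φ + ε • sadj w φ) i j).coeff g ≠ 0 → ρ i = ρ j ∧ g ∈ C (ρ i) := by
    intro i j g hg
    rw [hLφ, hD, coeff_conj_dmU] at hg
    have h1 := hst i j _ (hLs i j _ (left_ne_zero_of_mul hg))
    refine ⟨h1.1, ?_⟩
    have h2 := h1.2
    have h3 : u i * ((u i)⁻¹ * g * u j) * (u j)⁻¹ = g := by group
    rwa [h3] at h2
  have hdgφ : ∀ i g, g * g = 1 → (φ i i).coeff g ≠ 0 → g ∈ C (ρ i) := by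
    intro i g hg2 hg
    by_cases h1 : g = 1
    · rw [h1]; exact one_mem _
    rw [hφ, hD, coeff_conj_dmU] at hg
    have h2 : orderOf ((u i)⁻¹ * g * u i) = 2 := by
      rw [orderOf_eq_iff two_pos]
      constructor
      · rw [pow_two]
        calc (u i)⁻¹ * g * u i * ((u i)⁻¹ * g * u i) = (u i)⁻¹ * (g * g) * u i := by group
          _ = 1 := by rw [hg2]; group
      · intro m hm hm0 h3
        have h4 : m = 1 := by omega
        rw [h4, pow_one] at h3
        apply h1
        calc g = u i * ((u i)⁻¹ * g * u i) * (u i)⁻¹ := by group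
          _ = 1 := by rw [h3]; group
    have h5 := (hst i i _ (hdg i _ h2 (left_ne_zero_of_mul hg))).2
    have h3 : u i * ((u i)⁻¹ * g * u i) * (u i)⁻¹ = g := by group
    rwa [h3] at h5
  let φ' : Matrix κ κ (MonoidAlgebra R G) := Matrix.of fun i j =>
    MonoidAlgebra.ofCoeff ((φ i j).coeff.filter fun g => ρ i = ρ j ∧ g ∈ C (ρ i))
  have hφ' : ∀ i j g, (φ' i j).coeff g
      = if ρ i = ρ j ∧ g ∈ C (ρ i) then (φ i j).coeff g else 0 := by
    intro i j g
    change ((φ i j).coeff.filter fun g => ρ i = ρ j ∧ g ∈ C (ρ i)) g = _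
    rw [Finsupp.filter_apply]
  have hφs : ∀ i j g, (φ' i j).coeff g ≠ 0 → ρ i = ρ j ∧ g ∈ C (ρ i) := by
    intro i j g hg
    by_contra h
    rw [hφ', if_neg h] at hg
    exact hg rfl
  have hsw : ∀ i j g, (ρ i = ρ j ∧ g ∈ C (ρ i)) → (ρ j = ρ i ∧ g⁻¹ ∈ C (ρ j)) := by
    rintro i j g ⟨h1, h2⟩
    exact ⟨h1.symm, by rw [← h1]; exact inv_mem h2⟩
  have hL' : ∀ i j g, ((φ' + ε • sadj w φ') i j).coeff g
      = if ρ i = ρ j ∧ g ∈ C (ρ i) then ((φ + ε • sadj w φ) i j).coeff g else 0 := by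
    intro i j g
    simp only [Matrix.add_apply, Matrix.smul_apply, MonoidAlgebra.coeff_add, Finsupp.add_apply,
      MonoidAlgebra.coeff_smul, Finsupp.smul_apply, coeff_sadj]
    rw [hφ', hφ']
    by_cases h : ρ i = ρ j ∧ g ∈ C (ρ i)
    · rw [if_pos h, if_pos h, if_pos (hsw i j g h)]
    · have h' : ¬ (ρ j = ρ i ∧ g⁻¹ ∈ C (ρ j)) := fun h2 => h (by
        have := hsw j i g⁻¹ h2
        rwa [inv_inv] at this)
      rw [if_neg h, if_neg h, if_neg h', star_zero, smul_zero, smul_zero, add_zero]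
  have hLL : φ' + ε • sadj w φ' = φ + ε • sadj w φ := by
    ext i j g
    rw [hL']
    by_cases h : ρ i = ρ j ∧ g ∈ C (ρ i)
    · rw [if_pos h]
    · rw [if_neg h]
      by_contra h2
      exact h (hLφs i j g fun h3 => h2 h3.symm)
  obtain ⟨χ, hχ⟩ := boundary_of w ε (φ - φ') (by
      rw [sadj_sub, smul_sub, sub_add_sub_comm, hLL, sub_self]) (by
      intro i g hg
      rw [Matrix.sub_apply, MonoidAlgebra.coeff_sub, Finsupp.sub_apply, hφ']
      by_cases h : (φ i i).coeff g = 0
      · rw [h, ite_self, sub_zero]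
      · rw [if_pos ⟨rfl, hdgφ i g hg h⟩, sub_self])
  refine ⟨ρ, u, C, blk ρ ρ C φ', χ, hC, ?_, ?_⟩
  · rw [blockSum_blk ρ ρ C φ' hφs, ← hχ, add_sub_cancel]
  intro hunit a
  set B := φ' + ε • sadj w φ' with hB
  have hBs : ∀ i j g, (B i j).coeff g ≠ 0 → ρ i = ρ j ∧ g ∈ C (ρ i) := by
    intro i j g hg
    rw [hLL] at hg
    exact hLφs i j g hg
  have hBA : B = D.val * (ψ + ε • sadj w ψ) * sadj w D.val := hLL.trans hLφ
  obtain ⟨v, hv⟩ := hunit
  have hDs := isUnit_sadj w D
  let V : (Matrix κ κ (MonoidAlgebra R G))ˣ := ⟨sadj w D.val, sadj w D⁻¹.val, hDs.1, hDs.2⟩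
  have hBu : B = (D * v * V).val := by
    rw [hBA, ← hv]; rfl
  set x := D * v * V with hx
  have h1 := blk_mul ρ ρ C x.val x⁻¹.val x.mul_inv (by rw [← hBu]; exact hBs) a
  have h2 := blk_mul' ρ ρ C x.val x⁻¹.val x.inv_mul (by rw [← hBu]; exact hBs) a
  have h3 : blk ρ ρ C φ' a + ε • sadj (w.comp (C a).subtype) (blk ρ ρ C φ' a)
      = blk ρ ρ C x.val a := by
    rw [← hBu]
    ext i j g
    rw [Matrix.add_apply, MonoidAlgebra.coeff_add, Finsupp.add_apply, Matrix.smul_apply,
      MonoidAlgebra.coeff_smul, Finsupp.smul_apply, sadj_apply, coeff_sbar]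
    simp only [blk, MonoidAlgebra.coeff_comapDomain, Finsupp.comapDomain_apply]
    rw [hB, Matrix.add_apply, MonoidAlgebra.coeff_add, Finsupp.add_apply, Matrix.smul_apply,
      MonoidAlgebra.coeff_smul, Finsupp.smul_apply, sadj_apply, coeff_sbar]
    rfl
  rw [h3]
  exact ⟨⟨_, _, h1, h2⟩, rfl⟩

end forms

end Pool.Agent.Q175.LG
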