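import Pool.Agent.Q175.LG.Dil
import Pool.Agent.Q181.LG.Win
import Pool.Agent.Q26.LG.Tent
import Pool.Agent.Q26.LG.Str
import Pool.Agent.Q190.LG.GI
import Pool.Agent.TH6.PF.BassT

set_option autoImplicit false
set_option linter.unusedSectionVars false
set_option linter.style.haveILetI false

/-! Modules with a presentation which is controlled by an integral matrix of norm in the window above
`3 / √2` (the last steps of the proofs are those of `TH6.PF`, `TH6.FB`; helper175, project LG of
helper181). -/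

namespace Pool.Agent.Q175.LG

open Matrix TH57.Thr TH6.PF TH6.FB TH6.LF
open Pool.Agent.Q181.LG (Win Gapped S_str window_of)
open Pool.Agent.Q181.LR (Struct)
open Pool.Agent.H26R2.Bass (tf_zero_of_finite tau tau_eq ind_comm)
open Pool.Agent.H23R2.Cyc (ell_single tf tf_apply)

theorem s_str : S_str :=
  Pool.Agent.Q26.LG.t_str (Pool.Agent.Q26.LG.t_notri Pool.Agent.Q190.LG.t_g1
    Pool.Agent.Q26.LG.t_tent)

theorem struct_win {G : Type} [Group G] {ι κ : Type} [Fintype ι] [Fintype κ] [DecidableEq ι]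
    [DecidableEq κ] (N : Matrix ι κ (MonoidAlgebra ℤ G)) (h : Win N) : Struct N :=
  (window_of s_str N h).1

/-- the structure of modules with a controlled presentation -/
theorem fib_win {R : Type} [Ring R] {E G : Type} [Group E] [Group G] (φ : E →* G)
    (hφ : Function.Surjective φ) (P : Type) [AddCommGroup P] [Module (MonoidAlgebra R E) P]
    (m n : ℕ) (M : Matrix (Fin m) (Fin n) (MonoidAlgebra R E))
    (e : P ≃ₗ[MonoidAlgebra R E] Coker M) (A : Matrix (Fin m) (Fin n) (MonoidAlgebra ℤ G))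
    (hA : Win A) (hM : Ctrl φ A M) : FibSum R φ P := by
  classical
  obtain ⟨ρ, u, C, hC, hst⟩ := struct_win A hA
  choose v hv using fun i => hφ (u i)
  let r : Fin m → Fin (m + n) := fun i => finSumFinEquiv (ρ (Sum.inl i))
  let s : Fin n → Fin (m + n) := fun j => finSumFinEquiv (ρ (Sum.inr j))
  let V : Fin (m + n) → Subgroup E := fun b => (C (finSumFinEquiv.symm b)).comap φ
  have hV : ∀ b, (V b).map φ = C (finSumFinEquiv.symm b) := fun b =>
    Subgroup.map_comap_eq_self_of_surjective hφ _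
  let u₁ : Fin m → E := fun i => v (Sum.inl i)
  let w₁ : Fin n → E := fun j => v (Sum.inr j)
  have h : ∀ i j g, (M i j).coeff g ≠ 0 → r i = s j ∧ u₁ i * g * (w₁ j)⁻¹ ∈ V (r i) := by
    intro i j g hg
    have h1 := hst i j (φ g) (hM i j g hg)
    refine ⟨congrArg _ h1.1, ?_⟩
    change φ (u₁ i * g * (w₁ j)⁻¹) ∈ C (finSumFinEquiv.symm (finSumFinEquiv (ρ (Sum.inl i))))
    rw [Equiv.symm_apply_apply, map_mul, map_mul, map_inv]
    change φ (v (Sum.inl i)) * φ g * (φ (v (Sum.inr j)))⁻¹ ∈ _
    rw [hv, hv]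
    exact h1.2
  let er : ∀ b, Fin (Fintype.card {i // r i = b}) ≃ {i // r i = b} := fun b =>
    (Fintype.equivFin _).symm
  let es : ∀ b, Fin (Fintype.card {j // s j = b}) ≃ {j // s j = b} := fun b =>
    (Fintype.equivFin _).symm
  refine ⟨m + n, V, fun b => Fintype.card {i // r i = b}, fun b => Fintype.card {j // s j = b},
    fun b => (blkm M r s V u₁ w₁ b).submatrix (er b) (es b), fun b => ?_, ?_, ?_, ?_⟩
  · rw [hV]
    exact hC _
  · intro htf b
    rw [hV]
    obtain ⟨t, ht⟩ := hC (finSumFinEquiv.symm b)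
    exact isCyclic_of_finiteIndex (S := C (finSumFinEquiv.symm b)) (fun g n hn h => Subtype.ext
      (htf g.1 n hn (by simpa using congrArg Subtype.val h))) (Subgroup.zpowers t)
      inferInstance ht
  · obtain ⟨ψ⟩ := coker_pattern M r s V u₁ w₁ h
    have h2 : ∀ b, Nonempty (((({j // s j = b} → MonoidAlgebra R E) ⧸
        LinearMap.range (TH57.Thr.ind (blkm M r s V u₁ w₁ b)).vecMulLinear)) ≃ₗ[MonoidAlgebra R E]
        ((Fin (Fintype.card {j // s j = b}) → MonoidAlgebra R E) ⧸
        LinearMap.range (((blkm M r s V u₁ w₁ b).submatrix (er b) (es b)).map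
          (MonoidAlgebra.mapDomainRingHom R (V b).subtype)).vecMulLinear)) := fun b =>
      coker_reindex (TH57.Thr.ind (blkm M r s V u₁ w₁ b)) (er b) (es b)
    exact ⟨(e.trans ψ).trans (LinearEquiv.piCongrRight fun b => (h2 b).some)⟩
  · intro hP b
    obtain ⟨Y, hY⟩ := regular_of_projective M P hP e
    obtain ⟨Z, hZ⟩ := regular_blocks M r s V u₁ w₁ h Y hY b
    obtain ⟨ψ⟩ := coker_reindex (blkm M r s V u₁ w₁ b) (er b) (es b)
    haveI := projective_of_regular _ Z hZ
    exact Module.Projective.of_equiv ψ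

/-- the case of the identity -/
theorem vc_win {R : Type} [Ring R] {G : Type} [Group G] (P : Type) [AddCommGroup P]
    [Module (MonoidAlgebra R G) P] (m n : ℕ) (M : Matrix (Fin m) (Fin n) (MonoidAlgebra R G))
    (e : P ≃ₗ[MonoidAlgebra R G] Coker M) (A : Matrix (Fin m) (Fin n) (MonoidAlgebra ℤ G))
    (hA : Win A) (hM : ∀ i j g, (M i j).coeff g ≠ 0 → (A i j).coeff g ≠ 0) : VCSum R G P := by
  obtain ⟨k, V, p, q, B, h1, h2, h3, h4⟩ := fib_win (MonoidHom.id G) Function.surjective_id P m n M e
    A hA hM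
  refine ⟨k, V, p, q, B, fun b => ?_, fun htf b => ?_, h3, h4⟩
  · have := h1 b
    rwa [Subgroup.map_id] at this
  · have := h2 htf b
    rwa [Subgroup.map_id] at this

/-- Over a field and for a torsion-free group, sums of modules induced from cyclic subgroups which are
projective are free. -/
theorem free_of_vc (K : Type) [Field K] (G : Type) [Group G] (htf : TF G)
    (P : Type) [AddCommGroup P] [Module (MonoidAlgebra K G) P]
    (hP : Module.Projective (MonoidAlgebra K G) P) (h : VCSum K G P) :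
    Module.Free (MonoidAlgebra K G) P := by
  classical
  obtain ⟨k, V, p, q, B, -, hcyc, ⟨φ⟩, hproj⟩ := h
  have hreg : ∀ b, ∃ r : ℕ, Nonempty (((Fin (q b) → MonoidAlgebra K G) ⧸
      LinearMap.range ((B b).map
        (MonoidAlgebra.mapDomainRingHom K (V b).subtype)).vecMulLinear)
        ≃ₗ[MonoidAlgebra K G] (Fin r → MonoidAlgebra K G)) := by
    intro b
    obtain ⟨Y, hY⟩ := regular_of_projective (B b) _ (hproj hP b) (LinearEquiv.refl _ _)
    obtain ⟨S, i1, i2, i3, ⟨es⟩⟩ := pid_of_cyclic K (hcyc htf b) (fun g n hn h => Subtype.ext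
      (htf g.1 n hn (by simpa using congrArg Subtype.val h)))
    exact free_of_regular es (MonoidAlgebra.mapDomainRingHom K (V b).subtype) (B b) Y hY
  choose r hr using hreg
  have φ' := φ.trans (LinearEquiv.piCongrRight fun b => (hr b).some)
  exact Module.Free.of_equiv φ'.symm

/-- the Bass trace conjecture for regular matrices -/
theorem bass_win {R : Type} [CommRing R] [IsDomain R] {G : Type} [Group G] {m n : ℕ}
    (M : Matrix (Fin m) (Fin n) (MonoidAlgebra R G)) (N : Matrix (Fin m) (Fin n) (MonoidAlgebra ℤ G))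
    (hN : Win N) (hs : ∀ i j g, (M i j).coeff g ≠ 0 → (N i j).coeff g ≠ 0)
    (X : Matrix (Fin n) (Fin m) (MonoidAlgebra R G)) (hX : M * X * M = M)
    (g : G) (hg : ¬ IsUnit ((orderOf g : ℕ) : R)) : tau (1 - X * M) g = 0 := by
  classical
  have hidem : (1 - X * M) * (1 - X * M) = 1 - X * M := by
    have h2 : X * M * (X * M) = X * M := by rw [Matrix.mul_assoc, ← Matrix.mul_assoc M, hX]
    rw [Matrix.mul_sub, Matrix.sub_mul, Matrix.sub_mul, h2, Matrix.mul_one, Matrix.one_mul,
      sub_self, sub_zero, Matrix.mul_one]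
  rw [tau_eq]
  by_cases hfin : orderOf g = 0
  · rw [map_sub]
    obtain ⟨ρ, u, C, hC, hst⟩ := struct_win N hN
    have h1 : tf (Pool.Agent.H26R2.Bass.ind R g) (X * M) = 0 :=
      bass_pattern M (fun i => ρ (Sum.inl i)) (fun j => ρ (Sum.inr j)) C
        (fun i => u (Sum.inl i)) (fun j => u (Sum.inr j))
        (fun i j h hh => hst i j h (hs _ _ _ hh)) hC X hX g hfin
    have h2 : tf (Pool.Agent.H26R2.Bass.ind R g)
        (1 : Matrix (Fin n) (Fin n) (MonoidAlgebra R G)) = 0 := by
      rw [tf_apply]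
      refine Finset.sum_eq_zero fun i _ => ?_
      rw [Matrix.one_apply_eq, MonoidAlgebra.one_def, ell_single, one_mul]
      unfold Pool.Agent.H26R2.Bass.ind
      rw [if_neg]
      intro h3
      have h4 : g = 1 := isConj_one_right.1 h3
      rw [h4, orderOf_one] at hfin
      exact one_ne_zero hfin
    rw [h1, h2, sub_zero]
  · exact tf_zero_of_finite _ hidem g hfin hg

theorem proj_range {S : Type} [Ring S] {k : ℕ} (A : Matrix (Fin k) (Fin k) S) (hA : A * A = A) :
    Module.Projective S (LinearMap.range A.vecMulLinear) := by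
  refine Module.Projective.of_split (LinearMap.range A.vecMulLinear).subtype
    A.vecMulLinear.rangeRestrict ?_
  refine LinearMap.ext fun z => ?_
  obtain ⟨_, ⟨x, rfl⟩⟩ := z
  apply Subtype.ext
  change (x ᵥ* A) ᵥ* A = x ᵥ* A
  rw [Matrix.vecMul_vecMul, hA]

/-- the Bass trace conjecture for modules with a controlled presentation -/
theorem bass_win_module {R : Type} [CommRing R] [IsDomain R] {G : Type} [Group G] {k m n : ℕ}
    (A : Matrix (Fin k) (Fin k) (MonoidAlgebra R G)) (hA : A * A = A)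
    (M : Matrix (Fin m) (Fin n) (MonoidAlgebra R G)) (N : Matrix (Fin m) (Fin n) (MonoidAlgebra ℤ G))
    (hN : Win N) (hs : ∀ i j g, (M i j).coeff g ≠ 0 → (N i j).coeff g ≠ 0)
    (φ : LinearMap.range A.vecMulLinear ≃ₗ[MonoidAlgebra R G] Coker M)
    (g : G) (hg : ¬ IsUnit ((orderOf g : ℕ) : R)) : tau A g = 0 := by
  obtain ⟨X, hX⟩ := regular_of_projective M _ (proj_range A hA) φ
  obtain ⟨U, V, h1, h2⟩ := idem_iso A hA M X hX φ
  have h3 := bass_win M N hN hs X hX g hg
  rw [tau_eq] at h3 ⊢
  rw [← h1, tf_mul_rect _ (ind_comm g), h2, h3]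

/-- the image of an idempotent matrix is presented by the complementary idempotent -/
theorem range_coker {S : Type} [Ring S] {k : ℕ} (A : Matrix (Fin k) (Fin k) S) (hA : A * A = A) :
    Nonempty (LinearMap.range A.vecMulLinear ≃ₗ[S] Coker (1 - A)) := by
  have hker : LinearMap.ker A.vecMulLinear.rangeRestrict
      = LinearMap.range (1 - A).vecMulLinear := by
    ext y
    rw [LinearMap.ker_rangeRestrict, LinearMap.mem_ker, Matrix.vecMulLinear_apply]
    constructor
    · intro h
      refine ⟨y, ?_⟩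
      rw [Matrix.vecMulLinear_apply, Matrix.vecMul_sub, Matrix.vecMul_one, h, sub_zero]
    · rintro ⟨x, rfl⟩
      rw [Matrix.vecMulLinear_apply, Matrix.vecMul_vecMul, Matrix.sub_mul, Matrix.one_mul, hA,
        sub_self, Matrix.vecMul_zero]
  exact ⟨((Submodule.quotEquivOfEq _ _ hker).symm.trans
    (A.vecMulLinear.rangeRestrict.quotKerEquivOfSurjective
      (LinearMap.surjective_rangeRestrict _))).symm⟩

/-- finitely presented modules are cokernels of matrices -/
theorem fp_coker {S : Type} [Ring S] (P : Type) [AddCommGroup P] [Module S P]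
    (hP : Module.FinitePresentation S P) :
    ∃ (m n : ℕ) (A : Matrix (Fin m) (Fin n) S), Nonempty (P ≃ₗ[S] Coker A) := by
  obtain ⟨n, m, g, f, hf, hfg⟩ := Module.FinitePresentation.exists_fin' S P
  refine ⟨m, n, LinearMap.toMatrixRight' f, ?_⟩
  have h1 : (LinearMap.toMatrixRight' f).vecMulLinear = f :=
    LinearMap.toMatrixRight'.symm_apply_apply f
  have hker : LinearMap.ker g = LinearMap.range (LinearMap.toMatrixRight' f).vecMulLinear := by
    rw [h1]
    ext x
    exact hfg x
  exact ⟨((Submodule.quotEquivOfEq _ _ hker).symm.trans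
    (g.quotKerEquivOfSurjective hf)).symm⟩

/-- the window for small sizes -/
theorem win_size {G : Type} [Group G] {m n : ℕ} (N : Matrix (Fin m) (Fin n) (MonoidAlgebra ℤ G))
    (L : ℕ) (hL : 2 * min m n + 30 ≤ L) (hN : NormLE N (3 / Real.sqrt 2 + (1 / 2) ^ L)) : Win N := by
  left
  rw [Fintype.card_fin, Fintype.card_fin]
  refine Pool.Agent.Q181.LW.NormLE_mono (by positivity) ?_ hN
  have := Pool.Agent.Q181.LW.pow_half_le hL
  linarith

/-- the window for large gaps -/
theorem win_gap {G : Type} [Group G] {m n : ℕ} (N : Matrix (Fin m) (Fin n) (MonoidAlgebra ℤ G))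
    (L K : ℕ) (hL : 16 * K + 31 ≤ L) (hK : Gapped N ((K : ℝ) ^ 2))
    (hN : NormLE N (3 / Real.sqrt 2 + (1 / 2) ^ L)) : Win N := by
  refine Or.inr ⟨K, hK, ?_⟩
  refine Pool.Agent.Q181.LW.NormLE_mono (by positivity) ?_ hN
  have := Pool.Agent.Q181.LW.pow_half_le hL
  linarith

end Pool.Agent.Q175.LG
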