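import Pool.Agent.Q175.LG.Wn
import Pool.Agent.Q175.LG.Qs
import Pool.Agent.Y75.NK.Thm

set_option autoImplicit false
set_option linter.unusedSectionVars false
set_option linter.style.haveILetI false

/-! Classes in the negative `K`-groups of a group ring which are controlled over the group by integral
matrices of norm in the window above `3 / √2` (the proof of `mem_vcSub_fib` is that of
`Y75.NK.mem_vcSub`; helper175, project LG of helper181). -/

namespace Pool.Agent.Q175.LG.Nk

open CategoryTheory TH6.FB TH6.PF TH57.Thr Matrix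
open Pool.Agent.Y75.NK
open Pool.Agent.Q181.LG (Win)

theorem mem_vcSub_fib (R : Type) [Ring R] (m : ℕ) (G : GrpCat.{0})
    (e : Idem (MonoidAlgebra R ((EF m).obj G))) (h : FibSum R (prj m G) (W e)) :
    kclass R m G e ∈ vcSub R m G := by
  obtain ⟨k, V, p', q', D, hV, hV2, ⟨β⟩, hpr⟩ := h
  have hWp : Module.Projective (MonoidAlgebra R ((EF m).obj G)) (W e) := by
    refine Module.Projective.of_split (W e).subtype e.e.vecMulLinear.rangeRestrict ?_
    apply LinearMap.ext
    rintro ⟨_, v, rfl⟩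
    apply Subtype.ext
    change (v ᵥ* e.e) ᵥ* e.e = v ᵥ* e.e
    rw [Matrix.vecMul_vecMul, e.idem]
  have hpr2 := hpr hWp
  have hY : ∀ b, ∃ Y : Matrix (Fin (q' b)) (Fin (p' b)) (MonoidAlgebra R (V b)),
      D b * Y * D b = D b := fun b =>
    regular_of_projective (D b) (Coker (D b)) (hpr2 b) (LinearEquiv.refl _ _)
  choose Y hY using hY
  let ι : ∀ b, MonoidAlgebra R (V b) →+* MonoidAlgebra R ((EF m).obj G) := fun b =>
    MonoidAlgebra.mapDomainRingHom R (V b).subtype
  have hY' : ∀ b, (D b).map (ι b) * (Y b).map (ι b) * (D b).map (ι b) = (D b).map (ι b) := by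
    intro b
    rw [← Matrix.map_mul, ← Matrix.map_mul, hY b]
  have h1 : cls e = ∑ b, K0.map (ι b) (cls (regIdem (D b) (Y b) (hY b))) := by
    rw [cls_of_coker e k p' q' (fun b => (D b).map (ι b)) (fun b => (Y b).map (ι b)) hY' β]
    refine Finset.sum_congr rfl fun b _ => ?_
    rw [K0.map_cls, regIdem_map (ι b) (D b) (Y b) (hY b) (hY' b)]
  let κ : K0 (MonoidAlgebra R ((EF m).obj G)) →+ (Kneg m).obj ((gr R).obj G) :=
    ((kclT R m).app G).hom
  change κ (cls e) ∈ vcSub R m G
  rw [h1, map_sum]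
  refine AddSubgroup.sum_mem _ fun b _ => ?_
  obtain ⟨ν, hν⟩ := factor m G (V b)
  let f : GrpCat.of ((V b).map (prj m G)) ⟶ G := GrpCat.ofHom ((V b).map (prj m G)).subtype
  let x : K0 ((gr R).obj ((EF m).obj (GrpCat.of ((V b).map (prj m G))))) :=
    K0.map (MonoidAlgebra.mapDomainRingHom R ν) (cls (regIdem (D b) (Y b) (hY b)))
  have h2 : K0.map (ι b) (cls (regIdem (D b) (Y b) (hY b))) =
      K0.map ((gr R).map ((EF m).map f)).hom x := by
    have h3 : ι b = ((gr R).map ((EF m).map f)).hom.comp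
        (MonoidAlgebra.mapDomainRingHom R ν) := by
      have h4 : ((EF m).map f).hom.comp ν = (V b).subtype := MonoidHom.ext hν
      change MonoidAlgebra.mapDomainRingHom R (V b).subtype =
        (MonoidAlgebra.mapDomainRingHom R ((EF m).map f).hom).comp
          (MonoidAlgebra.mapDomainRingHom R ν)
      rw [← MonoidAlgebra.mapDomainRingHom_comp, h4]
    rw [h3]
    exact DFunLike.congr_fun (K0.map_comp ((gr R).map ((EF m).map f)).hom
      (MonoidAlgebra.mapDomainRingHom R ν)) _
  have h5 := congrArg (fun z => z.hom x) ((kclT R m).naturality f)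
  have h6 : κ (K0.map (ι b) (cls (regIdem (D b) (Y b) (hY b)))) =
      ((gr R ⋙ Kneg m).map f).hom (((kclT R m).app _).hom x) := (congrArg κ h2).trans h5
  rw [h6]
  exact AddSubgroup.mem_iSup_of_mem
    (⟨(V b).map (prj m G), hV b, fun h => hV2 h b⟩ :
      {V : Subgroup G // IsVC V ∧ (TF G → IsCyclic V)}) ⟨_, rfl⟩

/-- the identity matrix as an idempotent matrix -/
def oneI (A : Type) [Ring A] (s : ℕ) : Idem A := ⟨s, 1, Matrix.one_mul 1⟩

theorem oneI_map {A B : Type} [Ring A] [Ring B] (φ : A →+* B) (s : ℕ) :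
    (oneI A s).map φ = oneI B s := by
  unfold oneI Idem.map
  congr 1
  exact Matrix.map_one φ (map_zero φ) (map_one φ)

theorem proj_one (m : ℕ) (A : RingCat.{0}) (s : ℕ) :
    ((projT (m + 1)).app A).hom (cls (oneI _ s)) = 0 := by
  let Z := monF (Multiplicative ℤ)
  let a : (Kneg m).obj ((monF (Multiplicative ℕ)).obj A) :=
    ((projT m).app ((monF (Multiplicative ℕ)).obj A)).hom (cls (oneI _ s))
  have h1 : ((Kneg m).map (plus.app A)).hom a
      = ((projT m).app (Z.obj A)).hom (cls (oneI _ s)) := by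
    have h2 := congrArg (fun g => g.hom (cls (oneI _ s))) ((projT m).naturality (plus.app A))
    have h3 : ((lau m ⋙ K0F).map (plus.app A)).hom (cls (oneI _ s)) = cls (oneI _ s) :=
      congrArg cls (oneI_map _ s)
    refine Eq.trans ?_ (congrArg ((projT m).app (Z.obj A)).hom h3)
    exact h2.symm
  change QuotientAddGroup.mk' (polySub (Kneg m) A)
    (((projT m).app (Z.obj A)).hom (cls (oneI _ s))) = 0
  rw [← h1]
  refine (QuotientAddGroup.eq_zero_iff _).2 ?_
  exact AddSubgroup.mem_sup_left ⟨a, rfl⟩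

theorem kclass_one (R : Type) [Ring R] (m : ℕ) (G : GrpCat.{0}) (s : ℕ) :
    kclass R (m + 1) G (oneI _ s) = 0 := by
  have h1 : (K0F.map ((theta R (m + 1)).inv.app G)).hom (cls (oneI _ s)) = cls (oneI _ s) :=
    congrArg cls (oneI_map _ s)
  exact (congrArg ((projT (m + 1)).app ((gr R).obj G)).hom h1).trans (proj_one m _ s)

/-- classes of idempotent matrices over rings where projectives are free -/
theorem kclass_free (R : Type) [CommRing R] (m : ℕ) (G : GrpCat.{0})
    (e : Idem (MonoidAlgebra R ((EF (m + 1)).obj G)))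
    (h : ∃ (s : ℕ) (U : Matrix (Fin e.n) (Fin s) (MonoidAlgebra R ((EF (m + 1)).obj G)))
      (V : Matrix (Fin s) (Fin e.n) (MonoidAlgebra R ((EF (m + 1)).obj G))),
      U * V = e.e ∧ V * U = 1) : kclass R (m + 1) G e = 0 := by
  obtain ⟨s, U, V, h1, h2⟩ := h
  have h3 : cls e = cls (oneI _ s) := cls_eq ⟨U, V, h1, h2⟩
  exact (congrArg ((kclT R (m + 1)).app G).hom h3).trans (kclass_one R m G s)

theorem EF_free : ∀ (m : ℕ) (G : GrpCat.{0}) (r : ℕ) (_ : G ≃* Multiplicative (Fin r → ℤ)),
    Nonempty ((EF m).obj G ≃* Multiplicative (Fin (r + m) → ℤ))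
  | 0, _, _, e => ⟨e⟩
  | m + 1, G, r, e => by
    have e1 : (tz.obj G : GrpCat.{0}) ≃* Multiplicative (Fin (r + 1) → ℤ) :=
      (MulEquiv.prodCongr (MulEquiv.refl _) e).trans (QS.sucE r).symm
    obtain ⟨e2⟩ := EF_free m (tz.obj G) (r + 1) e1
    have h : r + 1 + m = r + (m + 1) := by ring
    rw [h] at e2
    exact ⟨e2⟩

theorem cyc_free (C : GrpCat.{0}) (hC : IsCyclic C) (htf : TF C) :
    ∃ r : ℕ, Nonempty (C ≃* Multiplicative (Fin r → ℤ)) := by
  obtain ⟨g, hg⟩ := hC.exists_generator
  by_cases h1 : g = 1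
  · refine ⟨0, ⟨?_⟩⟩
    haveI : Unique C := ⟨⟨1⟩, fun x => by
      obtain ⟨k, hk⟩ := Subgroup.mem_zpowers_iff.1 (hg x)
      rw [← hk, h1, _root_.one_zpow]; rfl⟩
    exact MulEquiv.ofUnique
  · refine ⟨1, ⟨?_⟩⟩
    have hb : Function.Bijective (zpowersHom C g) := by
      constructor
      · rw [injective_iff_map_eq_one]
        intro k hk
        rw [zpowersHom_apply] at hk
        by_contra h2
        have h3 : k.toAdd ≠ 0 := fun h => h2 (by
          apply Multiplicative.toAdd.injective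
          rw [h]; rfl)
        have h4 : g ^ k.toAdd.natAbs = 1 := by
          rcases Int.natAbs_eq k.toAdd with h5 | h5
          · rw [h5, zpow_natCast] at hk
            exact hk
          · rw [h5, _root_.zpow_neg, zpow_natCast, inv_eq_one] at hk
            exact hk
        exact h1 (htf g _ (Int.natAbs_pos.2 h3) h4)
      · intro x
        obtain ⟨k, hk⟩ := Subgroup.mem_zpowers_iff.1 (hg x)
        exact ⟨Multiplicative.ofAdd k, by rw [zpowersHom_apply]; exact hk⟩
    exact (MulEquiv.ofBijective _ hb).symm.trans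
      (AddEquiv.toMultiplicative (AddEquiv.funUnique (Fin 1) ℤ).symm)

/-- **Negative `K`-groups of Laurent polynomial rings over principal ideal domains.** -/
theorem neg_cyc (R : Type) [CommRing R] [IsDomain R] [IsPrincipalIdealRing R] (m : ℕ)
    (C : GrpCat.{0}) (hC : IsCyclic C) (htf : TF C) :
    Subsingleton ((Kneg (m + 1)).obj ((gr R).obj C)) := by
  obtain ⟨r, ⟨e⟩⟩ := cyc_free C hC htf
  obtain ⟨e'⟩ := EF_free (m + 1) C r e
  have hcomm : ∀ x y : (EF (m + 1)).obj C, x * y = y * x := by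
    intro x y
    apply e'.injective
    rw [map_mul, map_mul, mul_comm]
  have hz : ∀ f : Idem (MonoidAlgebra R ((EF (m + 1)).obj C)), kclass R (m + 1) C f = 0 := by
    intro f
    apply kclass_free R m C f
    let φ : MonoidAlgebra R ((EF (m + 1)).obj C)
      ≃+* MonoidAlgebra R (Multiplicative (Fin (r + (m + 1)) → ℤ)) :=
      MonoidAlgebra.mapDomainRingEquiv R e'
    obtain ⟨s, U, V, h1, h2⟩ := QS.swan (r + (m + 1)) R f.n (f.e.map φ) (by
      rw [← Matrix.map_mul, f.idem])
    refine ⟨s, U.map φ.symm, V.map φ.symm, ?_, ?_⟩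
    · rw [← Matrix.map_mul, h1, Matrix.map_map]
      ext i j
      simp
    · rw [← Matrix.map_mul, h2]
      exact Matrix.map_one _ (map_zero _) (map_one _)
  refine ⟨fun x y => ?_⟩
  have h : ∀ x : (Kneg (m + 1)).obj ((gr R).obj C), x = 0 := by
    intro x
    obtain ⟨f, g, h⟩ := kclass_generate R (m + 1) C x
    rw [h, hz f, hz g, sub_zero]
  rw [h x, h y]

end Pool.Agent.Q175.LG.Nk
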