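import Pool.Agent.Q181.LW.Sub

set_option autoImplicit false
set_option linter.unusedSectionVars false

/-! Subdivision of the graph of a rectangular matrix over a ring (the proofs are those of
`Q181.LR`, for group rings; helper175, project LG of helper181). -/

namespace Pool.Agent.Q175.LG.Rg

open Matrix
open Pool.Agent.Q181.LW (sum_right sum_left)

variable {S : Type} [Ring S] {ι κ E : Type} [Fintype ι] [DecidableEq ι] [Fintype κ]
  [DecidableEq κ] [Fintype E] [DecidableEq E]

/-- a matrix as a sum of edges -/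
def IsSum (s : E → ι) (t : E → κ) (z : E → S)
    (A : Matrix ι κ (S)) : Prop :=
  A = ∑ e, Matrix.single (s e) (t e) (z e)

variable (s : E → ι) (t : E → κ) (z : E → S) (L : ℕ)

noncomputable def Qs : Matrix ι (E × Fin L) (S) := fun i x =>
  if s x.1 = i ∧ (x.2 : ℕ) = 0 then z x.1 else 0

noncomputable def Ss : Matrix (E × Fin L) κ (S) := fun x j =>
  if t x.1 = j ∧ (x.2 : ℕ) + 1 = L then -1 else 0

noncomputable def Us : Matrix (E × Fin L) (E × Fin L) (S) := fun x y =>
  if x.1 = y.1 then (if x.2 = y.2 then 1 else if (x.2 : ℕ) + 1 = y.2 then -1 else 0) else 0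

noncomputable def Vs : Matrix (E × Fin L) (E × Fin L) (S) := fun x y =>
  if x.1 = y.1 ∧ x.2 ≤ y.2 then 1 else 0

theorem UsVs : (Us L : Matrix (E × Fin L) (E × Fin L) (S)) * Vs L = 1 := by
  ext1 x y
  rw [Matrix.mul_apply]
  have h1 : ∀ w : E × Fin L, (Us L x w : S) * Vs L w y
      = (if x.1 = w.1 then (if x.2 = w.2 then Vs L w y else
        if (x.2 : ℕ) + 1 = w.2 then -(Vs L w y) else 0) else 0) := by
    intro w
    unfold Us
    split_ifs <;> simp
  simp only [h1]
  rw [sum_right x (fun w => (Vs L w y : S)) (fun w => -(Vs L w y))]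
  obtain ⟨e, k⟩ := x
  obtain ⟨e', k'⟩ := y
  simp only [Vs]
  by_cases h2 : e = e'
  · subst h2
    by_cases h3 : k = k'
    · subst h3
      simp only [true_and, le_refl, if_true, Matrix.one_apply_eq]
      split_ifs with h4 h5
      · exfalso
        rw [Fin.le_def] at h5
        simp at h5
      · simp
      · simp
    · rw [Matrix.one_apply_ne (by simpa using h3)]
      have h3' : (k : ℕ) ≠ k' := fun h => h3 (Fin.ext h)
      simp only [true_and, Fin.le_def]
      split_ifs with h4 h5 h6 h5 h6 <;> first | (exfalso; omega) | simp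
  · rw [Matrix.one_apply_ne (by intro h; exact h2 (congrArg Prod.fst h))]
    simp [h2]

theorem VsUs : (Vs L : Matrix (E × Fin L) (E × Fin L) (S)) * Us L = 1 := by
  ext1 x y
  rw [Matrix.mul_apply]
  have h1 : ∀ w : E × Fin L, (Vs L x w : S) * Us L w y
      = (if w.1 = y.1 then (if w.2 = y.2 then Vs L x w else
        if (w.2 : ℕ) + 1 = y.2 then -(Vs L x w) else 0) else 0) := by
    intro w
    unfold Us
    split_ifs <;> simp
  simp only [h1]
  rw [sum_left y (fun w => (Vs L x w : S)) (fun w => -(Vs L x w))]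
  obtain ⟨e, k⟩ := x
  obtain ⟨e', k'⟩ := y
  simp only [Vs]
  by_cases h2 : e = e'
  · subst h2
    by_cases h3 : k = k'
    · subst h3
      simp only [true_and, le_refl, if_true, Matrix.one_apply_eq, Fin.le_def]
      split_ifs with h4 h5
      · exfalso
        omega
      · simp
      · simp
    · rw [Matrix.one_apply_ne (by simpa using h3)]
      have h3' : (k : ℕ) ≠ k' := fun h => h3 (Fin.ext h)
      simp only [true_and, Fin.le_def]
      split_ifs with h4 h5 h6 h5 h6 <;> first | (exfalso; omega) | simp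
  · rw [Matrix.one_apply_ne (by intro h; exact h2 (congrArg Prod.fst h))]
    simp [h2]

noncomputable def Qv : Matrix ι (E × Fin L) (S) := fun i x =>
  if s x.1 = i then z x.1 else 0

noncomputable def Sv : Matrix (E × Fin L) κ (S) := fun x j =>
  if t x.1 = j then -1 else 0

theorem QsVs (hL : 1 ≤ L) : (Qs s z L : Matrix ι (E × Fin L) (S))
    * (Vs L : Matrix (E × Fin L) (E × Fin L) (S)) = Qv s z L := by
  ext1 i x
  rw [Matrix.mul_apply, Finset.sum_eq_single ((x.1, ⟨0, hL⟩) : E × Fin L)]
  · simp only [Qs, Vs, Qv]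
    have h1 : (⟨0, hL⟩ : Fin L) ≤ x.2 := by rw [Fin.le_def]; exact Nat.zero_le _
    simp only [and_true, h1, if_true, mul_one]
  · rintro ⟨e, k⟩ - hne
    simp only [Qs, Vs]
    split_ifs with h1 h2
    · exfalso
      apply hne
      rw [← h2.1]
      congr 1
      exact Fin.ext h1.2
    · simp
    · simp
    · simp
  · intro h; exact absurd (Finset.mem_univ _) h

theorem VsSs (hL : 1 ≤ L) : (Vs L : Matrix (E × Fin L) (E × Fin L) (S))
    * (Ss t L : Matrix (E × Fin L) κ (S)) = Sv t L := by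
  ext1 x j
  rw [Matrix.mul_apply, Finset.sum_eq_single ((x.1, ⟨L - 1, by omega⟩) : E × Fin L)]
  · simp only [Ss, Vs, Sv]
    have h1 : x.2 ≤ (⟨L - 1, by omega⟩ : Fin L) := by
      rw [Fin.le_def]; simp only; omega
    have h2 : L - 1 + 1 = L := by omega
    simp only [and_true, h1, if_true, one_mul, h2]
  · rintro ⟨e, k⟩ - hne
    simp only [Ss, Vs]
    split_ifs with h1 h2
    · exfalso
      apply hne
      rw [h1.1]
      congr 1
      apply Fin.ext
      simp only
      omega
    · simp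
    · simp
    · simp
  · intro h; exact absurd (Finset.mem_univ _) h

theorem QVS (hL : 1 ≤ L) (A : Matrix ι κ (S)) (hA : IsSum s t z A) :
    A = -((Qs s z L : Matrix ι (E × Fin L) (S))
      * (Vs L : Matrix (E × Fin L) (E × Fin L) (S))
      * (Ss t L : Matrix (E × Fin L) κ (S))) := by
  rw [QsVs s z L hL, hA]
  ext1 i j
  rw [Matrix.neg_apply, Matrix.mul_apply, Matrix.sum_apply, Fintype.sum_prod_type,
    ← Finset.sum_neg_distrib]
  refine Finset.sum_congr rfl fun e _ => ?_
  rw [Finset.sum_eq_single ⟨L - 1, by omega⟩]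
  · simp only [Ss, Qv, Matrix.single_apply]
    have h2 : L - 1 + 1 = L := by omega
    simp only [h2, and_true]
    split_ifs with h3 h4 h5 h6 <;> simp_all
  · intro k _ hk
    simp only [Ss]
    rw [if_neg, mul_zero]
    rintro ⟨-, h⟩
    apply hk
    apply Fin.ext
    simp only
    omega
  · intro h; exact absurd (Finset.mem_univ _) h

section chain

variable {S : Type} [Ring S] {ι κ : Type} [Fintype ι] [DecidableEq ι] [Fintype κ]
  [DecidableEq κ] {m : ℕ} (s : Fin m → ι) (t : Fin m → κ) (z : Fin m → S)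

/-- the new indices -/
abbrev XC (ι κ : Type) (m : ℕ) := (ι × Fin m) ⊕ (κ × Fin m)

noncomputable def mid : Matrix (ι × Fin m) (κ × Fin m) (S) := fun x y =>
  if x.2 = y.2 ∧ s x.2 = x.1 ∧ t x.2 = y.1 then z x.2 else 0

noncomputable def QC (S : Type) [Ring S] (ι κ : Type) [DecidableEq ι] (m : ℕ) :
    Matrix ι (XC ι κ m) (S) :=
  fromCols (Qs id (fun _ => 1) m) 0

noncomputable def SC (S : Type) [Ring S] (ι κ : Type) [DecidableEq κ] (m : ℕ) :
    Matrix (XC ι κ m) κ (S) :=
  fromRows 0 (Ss id m)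

noncomputable def UC : Matrix (XC ι κ m) (XC ι κ m) (S) :=
  fromBlocks (Us m) (-mid s t z) 0 (Us m)

noncomputable def VC : Matrix (XC ι κ m) (XC ι κ m) (S) :=
  fromBlocks (Vs m) ((Vs m : Matrix (ι × Fin m) (ι × Fin m) (S)) * mid s t z
    * (Vs m : Matrix (κ × Fin m) (κ × Fin m) (S))) 0 (Vs m)

theorem UVC : UC s t z * VC s t z = 1 := by
  unfold UC VC
  rw [fromBlocks_multiply, ← fromBlocks_one]
  simp only [Matrix.mul_zero, Matrix.zero_mul, add_zero, zero_add, UsVs]
  rw [← Matrix.mul_assoc, ← Matrix.mul_assoc, UsVs, Matrix.one_mul, Matrix.neg_mul,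
    add_neg_cancel]

theorem VUC : VC s t z * UC s t z = 1 := by
  unfold UC VC
  rw [fromBlocks_multiply, ← fromBlocks_one]
  simp only [Matrix.mul_zero, Matrix.zero_mul, add_zero, zero_add, VsUs]
  rw [Matrix.mul_assoc (Vs m * mid s t z), VsUs, Matrix.mul_one, Matrix.mul_neg,
    neg_add_cancel]

theorem QmS (A : Matrix ι κ (S)) (hA : IsSum s t z A) :
    (Qv id (fun _ => 1) m : Matrix ι (ι × Fin m) (S)) * mid s t z
      * (Sv id m : Matrix (κ × Fin m) κ (S)) = -A := by
  rw [hA]
  ext1 i j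
  rw [Matrix.mul_apply, Matrix.neg_apply, Matrix.sum_apply, Fintype.sum_prod_type,
    Finset.sum_eq_single j]
  · rw [← Finset.sum_neg_distrib]
    refine Finset.sum_congr rfl fun k _ => ?_
    rw [Matrix.mul_apply, Finset.sum_eq_single (i, k)]
    · simp only [Qv, Sv, mid, id, Matrix.single_apply, true_and, if_true, one_mul]
      split_ifs with h1
      · simp
      · simp
    · rintro ⟨i', k'⟩ - hne
      simp only [Qv, mid, id]
      split_ifs with h1 h2
      · exfalso
        apply hne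
        rw [← h1, h2.1]
      · simp
      · simp
      · simp
    · intro h; exact absurd (Finset.mem_univ _) h
  · intro j' _ hj'
    refine Finset.sum_eq_zero fun k _ => ?_
    simp only [Sv, id]
    rw [if_neg hj', mul_zero]
  · intro h; exact absurd (Finset.mem_univ _) h

theorem QVSC (hm : 1 ≤ m) (A : Matrix ι κ (S)) (hA : IsSum s t z A) :
    A = -(QC S ι κ m * VC s t z * SC S ι κ m) := by
  unfold QC VC SC
  rw [Matrix.fromCols_mul_fromBlocks, Matrix.fromCols_mul_fromRows]
  simp only [Matrix.mul_zero, Matrix.zero_mul, add_zero, zero_add]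
  have h1 : (Qs id (fun _ => 1) m : Matrix ι (ι × Fin m) (S))
      * ((Vs m : Matrix (ι × Fin m) (ι × Fin m) (S)) * mid s t z
      * (Vs m : Matrix (κ × Fin m) (κ × Fin m) (S)))
      * (Ss id m : Matrix (κ × Fin m) κ (S))
      = ((Qs id (fun _ => 1) m : Matrix ι (ι × Fin m) (S))
      * (Vs m : Matrix (ι × Fin m) (ι × Fin m) (S))) * mid s t z
      * ((Vs m : Matrix (κ × Fin m) (κ × Fin m) (S))
      * (Ss id m : Matrix (κ × Fin m) κ (S))) := by
    simp only [Matrix.mul_assoc]
  rw [h1, QsVs _ _ m hm, VsSs _ m hm, QmS s t z A hA, neg_neg]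

/-- the chain matrix -/
noncomputable def ZC : Matrix (ι ⊕ XC ι κ m) (κ ⊕ XC ι κ m) (S) :=
  fromBlocks 0 (QC S ι κ m) (SC S ι κ m) (UC s t z)

/-- a property of entries -/
structure Mo (M : S → Prop) : Prop where
  zero : M 0
  one : M 1
  neg : ∀ a, M a → M (-a)

theorem mono_Us {M : S → Prop} (hM : Mo M) {E : Type} [DecidableEq E] (x y : E × Fin m) :
    M (Us m x y) := by
  unfold Us
  split_ifs
  · exact hM.one
  · exact hM.neg _ hM.one
  · exact hM.zero
  · exact hM.zero

theorem mono_QC {M : S → Prop} (hM : Mo M) (i : ι) (x : XC ι κ m) : M (QC S ι κ m i x) := by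
  rcases x with x | x
  · change M (Qs id (fun _ => 1) m i x)
    unfold Qs
    split_ifs
    · exact hM.one
    · exact hM.zero
  · exact hM.zero

theorem mono_SC {M : S → Prop} (hM : Mo M) (x : XC ι κ m) (j : κ) : M (SC S ι κ m x j) := by
  rcases x with x | x
  · exact hM.zero
  · change M (Ss id m x j)
    unfold Ss
    split_ifs
    · exact hM.neg _ hM.one
    · exact hM.zero

theorem mono_UC {M : S → Prop} (hM : Mo M) (hz : ∀ e, M (z e)) (x y : XC ι κ m) :
    M (UC s t z x y) := by
  rcases x with x | x <;> rcases y with y | y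
  · exact mono_Us hM x y
  · change M (-(mid s t z x y))
    unfold mid
    split_ifs
    · exact hM.neg _ (hz _)
    · exact hM.neg _ hM.zero
  · exact hM.zero
  · exact mono_Us hM x y

/-- the next index -/
def nx (x : ι × Fin m) : ι × Fin m := if h : (x.2 : ℕ) + 1 < m then (x.1, ⟨x.2 + 1, h⟩) else x

/-- the previous index -/
def pv (x : ι × Fin m) : ι × Fin m := (x.1, ⟨x.2 - 1, lt_of_le_of_lt (Nat.sub_le _ _) x.2.2⟩)

theorem Us_row (x y : ι × Fin m) (h : (Us m x y : S) ≠ 0) : y = x ∨
    (y = nx x ∧ (x.2 : ℕ) + 1 < m) := by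
  unfold Us at h
  split_ifs at h with h1 h2 h3
  · exact Or.inl (Prod.ext h1.symm h2.symm)
  · right
    have h4 := y.2.2
    have h5 : (x.2 : ℕ) + 1 < m := by omega
    refine ⟨?_, h5⟩
    unfold nx
    rw [dif_pos h5]
    exact Prod.ext h1.symm (Fin.ext h3.symm)
  · exact absurd rfl h
  · exact absurd rfl h

theorem Us_col (x y : ι × Fin m) (h : (Us m x y : S) ≠ 0) : x = y ∨
    (x = pv y ∧ 1 ≤ (y.2 : ℕ)) := by
  unfold Us at h
  split_ifs at h with h1 h2 h3
  · exact Or.inl (Prod.ext h1 h2)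
  · right
    refine ⟨?_, by omega⟩
    unfold pv
    refine Prod.ext h1 (Fin.ext ?_)
    simp only
    omega
  · exact absurd rfl h
  · exact absurd rfl h

theorem card3 {α : Type} [DecidableEq α] (a b c : α) : ({a, b, c} : Finset α).card ≤ 3 :=
  Finset.card_le_three

/-- a row of the right hand part -/
theorem QC_row (i : ι) (hm : 1 ≤ m) (x : XC ι κ m) (h : QC S ι κ m i x ≠ 0) :
    x = Sum.inl (i, ⟨0, hm⟩) := by
  rcases x with x | x
  · change Qs id (fun _ => 1) m i x ≠ 0 at h
    unfold Qs at h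
    split_ifs at h with h1
    · exact congrArg Sum.inl (Prod.ext h1.1 (Fin.ext h1.2))
    · exact absurd rfl h
  · exact absurd rfl h

theorem SC_col (j : κ) (hm : 1 ≤ m) (x : XC ι κ m) (h : SC S ι κ m x j ≠ 0) :
    x = Sum.inr (j, ⟨m - 1, by omega⟩) := by
  rcases x with x | x
  · exact absurd rfl h
  · change Ss id m x j ≠ 0 at h
    unfold Ss at h
    split_ifs at h with h1
    · refine congrArg Sum.inr (Prod.ext h1.1 (Fin.ext ?_))
      simp only
      omega
    · exact absurd rfl h

/-- rows of the lower part -/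
theorem US_row (x : XC ι κ m) : ∃ T : Finset (κ ⊕ XC ι κ m), T.card ≤ 3 ∧
    (∀ j, SC S ι κ m x j ≠ 0 → Sum.inl j ∈ T) ∧
    ∀ y, UC s t z x y ≠ 0 → Sum.inr y ∈ T := by
  classical
  rcases x with x | x
  · refine ⟨{Sum.inr (Sum.inl x), Sum.inr (Sum.inl (nx x)), Sum.inr (Sum.inr (t x.2, x.2))},
      card3 _ _ _, fun j h => absurd rfl h, ?_⟩
    rintro (y | y) h
    · rcases Us_row x y h with h1 | h1
      · simp [h1]
      · simp [h1.1]
    · change -(mid s t z x y) ≠ 0 at h
      unfold mid at h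
      split_ifs at h with h1
      · have : y = (t x.2, x.2) := Prod.ext h1.2.2.symm h1.1.symm
        simp [this]
      · exact absurd neg_zero h
  · refine ⟨{Sum.inr (Sum.inr x), Sum.inr (Sum.inr (nx x)), Sum.inl x.1}, card3 _ _ _, ?_, ?_⟩
    · intro j h
      change Ss id m x j ≠ 0 at h
      unfold Ss at h
      split_ifs at h with h1
      · have : x.1 = j := h1.1
        simp [this]
      · exact absurd rfl h
    · rintro (y | y) h
      · exact absurd rfl h
      · rcases Us_row x y h with h1 | h1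
        · simp [h1]
        · simp [h1.1]

/-- columns of the right part -/
theorem QU_col (y : XC ι κ m) : ∃ T : Finset (ι ⊕ XC ι κ m), T.card ≤ 3 ∧
    (∀ i, QC S ι κ m i y ≠ 0 → Sum.inl i ∈ T) ∧
    ∀ x, UC s t z x y ≠ 0 → Sum.inr x ∈ T := by
  classical
  rcases y with y | y
  · refine ⟨{Sum.inr (Sum.inl y), Sum.inr (Sum.inl (pv y)), Sum.inl y.1}, card3 _ _ _, ?_, ?_⟩
    · intro i h
      change Qs id (fun _ => 1) m i y ≠ 0 at h
      unfold Qs at h
      split_ifs at h with h1
      · have : y.1 = i := h1.1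
        simp [this]
      · exact absurd rfl h
    · rintro (x | x) h
      · rcases Us_col x y h with h1 | h1
        · simp [h1]
        · simp [h1.1]
      · exact absurd rfl h
  · refine ⟨{Sum.inr (Sum.inr y), Sum.inr (Sum.inr (pv y)), Sum.inr (Sum.inl (s y.2, y.2))},
      card3 _ _ _, fun i h => absurd rfl h, ?_⟩
    rintro (x | x) h
    · change -(mid s t z x y) ≠ 0 at h
      unfold mid at h
      split_ifs at h with h1
      · have : x = (s y.2, y.2) := Prod.ext (by rw [← h1.1]; exact h1.2.1.symm) h1.1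
        simp [this]
      · exact absurd neg_zero h
    · rcases Us_col x y h with h1 | h1
      · simp [h1]
      · simp [h1.1]

theorem mono_ZC {M : S → Prop} (hM : Mo M) (hz : ∀ e, M (z e)) (x : ι ⊕ XC ι κ m)
    (y : κ ⊕ XC ι κ m) : M (ZC s t z x y) := by
  rcases x with x | x <;> rcases y with y | y
  · exact hM.zero
  · exact mono_QC hM x y
  · exact mono_SC hM x y
  · exact mono_UC s t z hM hz x y

theorem ZC_row (hm : 1 ≤ m) (x : ι ⊕ XC ι κ m) : ∃ T : Finset (κ ⊕ XC ι κ m), T.card ≤ 3 ∧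
    ∀ y, ZC s t z x y ≠ 0 → y ∈ T := by
  classical
  rcases x with x | x
  · refine ⟨{Sum.inr (Sum.inl (x, ⟨0, hm⟩))}, by simp, ?_⟩
    rintro (y | y) h
    · exact absurd rfl h
    · rw [QC_row x hm y h]
      simp
  · obtain ⟨T, h1, h2, h3⟩ := US_row s t z x
    refine ⟨T, h1, ?_⟩
    rintro (y | y) h
    · exact h2 y h
    · exact h3 y h

theorem ZC_col (hm : 1 ≤ m) (y : κ ⊕ XC ι κ m) : ∃ T : Finset (ι ⊕ XC ι κ m), T.card ≤ 3 ∧
    ∀ x, ZC s t z x y ≠ 0 → x ∈ T := by
  classical
  rcases y with y | y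
  · refine ⟨{Sum.inr (Sum.inr (y, ⟨m - 1, by omega⟩))}, by simp, ?_⟩
    rintro (x | x) h
    · exact absurd rfl h
    · rw [SC_col y hm x h]
      simp
  · obtain ⟨T, h1, h2, h3⟩ := QU_col s t z y
    refine ⟨T, h1, ?_⟩
    rintro (x | x) h
    · exact h2 x h
    · exact h3 x h

end chain

end Pool.Agent.Q175.LG.Rg
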