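import Pool.Agent.TH57.Thr.VCK
import Pool.Agent.Q181.LR.Vc

set_option autoImplicit false
set_option linter.unusedSectionVars false

/-! The logarithmic law for `K₁` of integral group rings of all groups: classes which do not come from
virtually cyclic subgroups (helper175, project LG of helper181). -/

namespace Pool.Agent.Q175.LG

open Matrix TH57.Thr
open Pool.Agent.Q181.LR (Struct struct_size struct_inv)
open Pool.Agent.Q181.LW (Represents thr_mono upper_fin LB_of_inv)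

variable {Γ : Type} [Group Γ]

/-- Invertible matrices with a block structure. -/
theorem form_of {κ : Type} [Fintype κ] [DecidableEq κ] (A : (Matrix κ κ (MonoidAlgebra ℤ Γ))ˣ)
    (hs : Struct (A : Matrix κ κ (MonoidAlgebra ℤ Γ))) :
    (∃ (r : κ → κ ⊕ κ) (V : κ ⊕ κ → Subgroup Γ) (u w : κ → Γ) (σ : Equiv.Perm κ),
      (∀ b, VCy (V b)) ∧
      (∀ i j g, ((A : Matrix κ κ (MonoidAlgebra ℤ Γ)) (σ i) j).coeff g ≠ 0 →
        r i = r j ∧ u (σ i) * g * (w j)⁻¹ ∈ V (r i)) ∧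
      (∀ i j g, ((↑A⁻¹ : Matrix κ κ (MonoidAlgebra ℤ Γ)) i (σ j)).coeff g ≠ 0 →
        r i = r j ∧ w i * g * (u (σ j))⁻¹ ∈ V (r i))) ∧
    A ∈ VCG ℤ Γ κ := by
  obtain ⟨ρ, u, C, hC, hst⟩ := hs
  obtain ⟨σ, hσ⟩ := aug_perm A
  have hlab : ∀ i, ρ (Sum.inl (σ i)) = ρ (Sum.inr i) := by
    intro i
    have h1 := hσ i
    by_contra h2
    apply h1
    ext g
    by_contra h3
    exact h2 (hst _ _ g h3).1
  have hpat : ∀ i j g, ((A : Matrix κ κ (MonoidAlgebra ℤ Γ)) (σ i) j).coeff g ≠ 0 →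
      ρ (Sum.inr i) = ρ (Sum.inr j) ∧
        u (Sum.inl (σ i)) * g * (u (Sum.inr j))⁻¹ ∈ C (ρ (Sum.inr i)) := by
    intro i j g hg
    have h2 := hst _ _ g hg
    rwa [hlab] at h2
  obtain ⟨h1, h2⟩ := monomial_form A (fun i => ρ (Sum.inr i)) C (fun i => u (Sum.inl i))
    (fun j => u (Sum.inr j)) σ hpat
  refine ⟨⟨fun i => ρ (Sum.inr i), C, fun i => u (Sum.inl i), fun j => u (Sum.inr j), σ, hC,
    hpat, h2⟩, ?_⟩
  obtain ⟨M, hM, hAM⟩ := h1 (VCG ℤ Γ κ) (fun i => glim_le_VCG _ (hC _))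
  rw [hAM]
  have hz : ∀ g : Γ, glim ℤ κ (Subgroup.zpowers g) ≤ VCG ℤ Γ κ := fun g =>
    glim_le_VCG _ (VCy_zpowers g)
  have hb : glim ℤ κ (⊥ : Subgroup Γ) ≤ VCG ℤ Γ κ := by
    have := hz 1
    rwa [Subgroup.zpowers_one_eq_bot] at this
  exact mul_mem (mul_mem (mul_mem (inv_mem (dguR_mem _ _ hz)) (inv_mem (puR_mem _ _ hb))) hM)
    (dguR_mem _ _ hz)

/-- few rows -/
theorem st_size {κ : Type} [Fintype κ] [DecidableEq κ] (A : (Matrix κ κ (MonoidAlgebra ℤ Γ))ˣ)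
    (hA : NormLE A.val (3 / Real.sqrt 2 + (1 / 2) ^ (2 * Fintype.card κ + 30))) :
    Struct A.val := struct_size A.val hA

/-- small inverse -/
theorem st_inv {κ : Type} [Fintype κ] [DecidableEq κ] (A : (Matrix κ κ (MonoidAlgebra ℤ Γ))ˣ)
    (K : ℕ) (hB : NormLE A⁻¹.val K)
    (hA : NormLE A.val (3 / Real.sqrt 2 + (1 / 2) ^ (8 * K + 31))) : Struct A.val :=
  struct_inv A.val K (LB_of_inv A.val A⁻¹.val A.mul_inv K hB) hA

end Pool.Agent.Q175.LG
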